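import Pool.Agent.helper12.GS.Pm

/-!
Generated: constants of the corner programs of the table Q175a.
-/

namespace Pool.Agent.helper12.K175

open Pool.Agent.helper31.IA (Z)
open Pool.Agent.helper12.GS

def p0 : Pm where
  ec := ⟨5888802816, 0, 0, 0⟩
  bc := ⟨0, 0, 0, 0⟩
  nn := ⟨1099511627776, 0, 0, 0⟩
  tj := ⟨4398046511104, 0, 0, 0⟩
  ca := ⟨989453090816, 0, 0, 0⟩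
  cb := ⟨919123001344, 0, 0, 0⟩
  cc := ⟨0, 0, 0, 0⟩
  ax := ⟨0, 0, 0, 0⟩
  ay := ⟨0, 0, 0, 0⟩
  xa := ⟨0, 0, 0, 0⟩
  C2 := ⟨0, 0, 0, 0⟩
  wr := ⟨0, 572035956736, 0, 0⟩
  wi := ⟨5872294035456, 0, 0, 0⟩
  w1 := ⟨0, 53395033423872, 0, 0⟩
  h000 := ⟨272971904, 0, 0, 0⟩
  h001 := ⟨489062528, 0, 0, 0⟩
  h002 := ⟨2656412416, 0, 0, 0⟩
  h003 := ⟨0, 1306548416, 0, 0⟩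
  h010 := ⟨0, 347497083008, 0, 0⟩
  h011 := ⟨676619660672, 0, 0, 0⟩
  h012 := ⟨0, 0, 0, 0⟩
  h020 := ⟨8480923749376, 0, 0, 0⟩
  h021 := ⟨0, 0, 0, 0⟩
  h030 := ⟨0, 0, 0, 0⟩
  h100 := ⟨188632576, 0, 0, 0⟩
  h101 := ⟨0, 966097280, 0, 0⟩
  h102 := ⟨0, 513224704, 0, 0⟩
  h110 := ⟨0, 52829926912, 0, 0⟩
  h111 := ⟨0, 343015587136, 0, 0⟩
  h120 := ⟨0, 0, 0, 0⟩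
  h200 := ⟨0, 233343552, 0, 0⟩
  h201 := ⟨194361024, 0, 0, 0⟩
  h202 := ⟨155037952, 0, 0, 0⟩
  h210 := ⟨23454181312, 0, 0, 0⟩
  h211 := ⟨0, 0, 0, 0⟩
  h300 := ⟨33256640, 0, 0, 0⟩
  h301 := ⟨0, 22647360, 0, 0⟩
  h310 := ⟨0, 323837248, 0, 0⟩
  h400 := ⟨2781952, 0, 0, 0⟩
  h401 := ⟨0, 864128, 0, 0⟩
  h410 := ⟨0, 0, 0, 0⟩
  h500 := ⟨0, 1356160, 0, 0⟩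
  h501 := ⟨0, 0, 0, 0⟩
  h600 := ⟨220928, 0, 0, 0⟩
  h700 := ⟨0, 0, 0, 0⟩
  h800 := ⟨0, 0, 0, 0⟩
  m000 := ⟨1097613705216, 0, 0, 0⟩
  m001 := ⟨378535936, 0, 0, 0⟩
  m002 := ⟨0, 788791296, 0, 0⟩
  m010 := ⟨571594768384, 0, 0, 0⟩
  m100 := ⟨3789684736, 0, 0, 0⟩
  m101 := ⟨24641536, 0, 0, 0⟩
  m110 := ⟨490132406272, 0, 0, 0⟩
  m200 := ⟨0, 195493888, 0, 0⟩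
  m300 := ⟨26476544, 0, 0, 0⟩
  a00 := ⟨117940617216, 0, 0, 0⟩
  a01 := ⟨0, 39049035776, 0, 0⟩
  a02 := ⟨462357856256, 0, 0, 0⟩
  a03 := ⟨0, 1310711545856, 0, 0⟩
  a10 := ⟨0, 1738259955712, 0, 0⟩
  a11 := ⟨0, 41124760125440, 0, 0⟩
  b00 := ⟨105986916352, 0, 0, 0⟩
  b01 := ⟨0, 50786992128, 0, 0⟩
  b02 := ⟨447478562816, 0, 0, 0⟩
  b03 := ⟨0, 1231294824448, 0, 0⟩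
  b10 := ⟨0, 4464958373888, 0, 0⟩
  b11 := ⟨0, 30019575283712, 0, 0⟩
  t00 := ⟨1246946263040, 0, 0, 0⟩
  t01 := ⟨0, 2512996466688, 0, 0⟩
  t02 := ⟨7476376829952, 0, 0, 0⟩
  t03 := ⟨0, 14665207644160, 0, 0⟩
  t10 := ⟨0, 6328213438464, 0, 0⟩
  t11 := ⟨0, 281601925251072, 0, 0⟩
  s00 := ⟨1836156190720, 0, 0, 0⟩
  s01 := ⟨0, 3969712128, 0, 0⟩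
  s02 := ⟨236713738240, 0, 0, 0⟩
  s03 := ⟨0, 642380070912, 0, 0⟩
  s10 := ⟨626396364800, 0, 0, 0⟩
  s11 := ⟨0, 6380609994752, 0, 0⟩
  g00 := ⟨19514988160, 0, 0, 0⟩
  g01 := ⟨498263168, 0, 0, 0⟩
  g10 := ⟨4987442569344, 0, 0, 0⟩
  g11 := ⟨0, 0, 0, 0⟩
  f00 := ⟨0, 23726705472, 0, 0⟩
  f01 := ⟨83390860096, 0, 0, 0⟩
  f10 := ⟨11549735263680, 0, 0, 0⟩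
  f11 := ⟨0, 0, 0, 0⟩
  l000 := ⟨0, 0, 0, 0⟩
  l001 := ⟨0, 0, 0, 0⟩
  l002 := ⟨0, 0, 0, 0⟩
  l010 := ⟨0, 0, 0, 0⟩
  l011 := ⟨0, 0, 0, 0⟩
  l020 := ⟨0, 0, 0, 0⟩
  l100 := ⟨0, 0, 0, 0⟩
  l101 := ⟨0, 0, 0, 0⟩
  l102 := ⟨0, 0, 0, 0⟩
  l110 := ⟨0, 0, 0, 0⟩
  l111 := ⟨0, 0, 0, 0⟩
  l120 := ⟨0, 0, 0, 0⟩
  l200 := ⟨0, 0, 0, 0⟩
  l201 := ⟨0, 0, 0, 0⟩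
  l210 := ⟨0, 0, 0, 0⟩
  l300 := ⟨0, 0, 0, 0⟩
  l301 := ⟨0, 0, 0, 0⟩
  l310 := ⟨0, 0, 0, 0⟩
  l400 := ⟨0, 0, 0, 0⟩
  l401 := ⟨0, 0, 0, 0⟩
  l410 := ⟨0, 0, 0, 0⟩
  l500 := ⟨0, 0, 0, 0⟩
  l501 := ⟨0, 0, 0, 0⟩
  l510 := ⟨0, 0, 0, 0⟩
  l600 := ⟨0, 0, 0, 0⟩
  l700 := ⟨0, 0, 0, 0⟩
  l800 := ⟨0, 0, 0, 0⟩
  l900 := ⟨0, 0, 0, 0⟩
  l1000 := ⟨0, 0, 0, 0⟩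
  l1100 := ⟨0, 0, 0, 0⟩
  q00 := ⟨0, 0, 0, 0⟩
  q01 := ⟨0, 0, 0, 0⟩
  q02 := ⟨0, 0, 0, 0⟩
  q03 := ⟨0, 0, 0, 0⟩
  q10 := ⟨0, 0, 0, 0⟩
  q11 := ⟨0, 0, 0, 0⟩
  q12 := ⟨0, 0, 0, 0⟩
  q20 := ⟨0, 0, 0, 0⟩
  q21 := ⟨0, 0, 0, 0⟩
  q30 := ⟨0, 0, 0, 0⟩
  n000 := ⟨0, 0, 0, 0⟩
  n001 := ⟨0, 0, 0, 0⟩
  n002 := ⟨0, 0, 0, 0⟩
  n010 := ⟨0, 0, 0, 0⟩
  n011 := ⟨0, 0, 0, 0⟩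
  n020 := ⟨0, 0, 0, 0⟩
  n100 := ⟨0, 0, 0, 0⟩
  n101 := ⟨0, 0, 0, 0⟩
  n110 := ⟨0, 0, 0, 0⟩
  n200 := ⟨0, 0, 0, 0⟩
  n201 := ⟨0, 0, 0, 0⟩
  n210 := ⟨0, 0, 0, 0⟩
  n300 := ⟨0, 0, 0, 0⟩
  n400 := ⟨0, 0, 0, 0⟩
  n500 := ⟨0, 0, 0, 0⟩
  e00 := ⟨0, 0, 0, 0⟩
  e01 := ⟨0, 0, 0, 0⟩
  e02 := ⟨0, 0, 0, 0⟩
  e03 := ⟨0, 0, 0, 0⟩
  e10 := ⟨0, 0, 0, 0⟩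
  e11 := ⟨0, 0, 0, 0⟩
  B1 := 0

def p1 : Pm where
  ec := ⟨5888802816, 0, 0, 0⟩
  bc := ⟨0, 0, 0, 0⟩
  nn := ⟨2199023255552, 0, 0, 0⟩
  tj := ⟨6597069766656, 0, 0, 0⟩
  ca := ⟨919123001344, 0, 0, 0⟩
  cb := ⟨849866653696, 0, 0, 0⟩
  cc := ⟨0, 0, 0, 0⟩
  ax := ⟨0, 0, 0, 0⟩
  ay := ⟨0, 0, 0, 0⟩
  xa := ⟨0, 0, 0, 0⟩
  C2 := ⟨0, 0, 0, 0⟩
  wr := ⟨0, 572035956736, 0, 0⟩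
  wi := ⟨5872294035456, 0, 0, 0⟩
  w1 := ⟨0, 53395033423872, 0, 0⟩
  h000 := ⟨272971904, 0, 0, 0⟩
  h001 := ⟨489062528, 0, 0, 0⟩
  h002 := ⟨2656412416, 0, 0, 0⟩
  h003 := ⟨0, 1306548416, 0, 0⟩
  h010 := ⟨0, 347497083008, 0, 0⟩
  h011 := ⟨676619660672, 0, 0, 0⟩
  h012 := ⟨0, 0, 0, 0⟩
  h020 := ⟨8480923749376, 0, 0, 0⟩
  h021 := ⟨0, 0, 0, 0⟩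
  h030 := ⟨0, 0, 0, 0⟩
  h100 := ⟨188632576, 0, 0, 0⟩
  h101 := ⟨0, 966097280, 0, 0⟩
  h102 := ⟨0, 513224704, 0, 0⟩
  h110 := ⟨0, 52829926912, 0, 0⟩
  h111 := ⟨0, 343015587136, 0, 0⟩
  h120 := ⟨0, 0, 0, 0⟩
  h200 := ⟨0, 233343552, 0, 0⟩
  h201 := ⟨194361024, 0, 0, 0⟩
  h202 := ⟨155037952, 0, 0, 0⟩
  h210 := ⟨23454181312, 0, 0, 0⟩
  h211 := ⟨0, 0, 0, 0⟩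
  h300 := ⟨33256640, 0, 0, 0⟩
  h301 := ⟨0, 22647360, 0, 0⟩
  h310 := ⟨0, 323837248, 0, 0⟩
  h400 := ⟨2781952, 0, 0, 0⟩
  h401 := ⟨0, 864128, 0, 0⟩
  h410 := ⟨0, 0, 0, 0⟩
  h500 := ⟨0, 1356160, 0, 0⟩
  h501 := ⟨0, 0, 0, 0⟩
  h600 := ⟨220928, 0, 0, 0⟩
  h700 := ⟨0, 0, 0, 0⟩
  h800 := ⟨0, 0, 0, 0⟩
  m000 := ⟨1097900752896, 0, 0, 0⟩
  m001 := ⟨158466048, 0, 0, 0⟩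
  m002 := ⟨0, 353828864, 0, 0⟩
  m010 := ⟨524496732160, 0, 0, 0⟩
  m100 := ⟨3698720768, 0, 0, 0⟩
  m101 := ⟨28311552, 0, 0, 0⟩
  m110 := ⟨489600188416, 0, 0, 0⟩
  m200 := ⟨0, 178388992, 0, 0⟩
  m300 := ⟨24117248, 0, 0, 0⟩
  a00 := ⟨105986916352, 0, 0, 0⟩
  a01 := ⟨0, 50786992128, 0, 0⟩
  a02 := ⟨447478562816, 0, 0, 0⟩
  a03 := ⟨0, 1231294824448, 0, 0⟩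
  a10 := ⟨0, 4464958373888, 0, 0⟩
  a11 := ⟨0, 30019575283712, 0, 0⟩
  b00 := ⟨95632752640, 0, 0, 0⟩
  b01 := ⟨0, 59648507904, 0, 0⟩
  b02 := ⟨442056179712, 0, 0, 0⟩
  b03 := ⟨0, 1183234457600, 0, 0⟩
  b10 := ⟨0, 6648886722560, 0, 0⟩
  b11 := ⟨0, 20281675022336, 0, 0⟩
  t00 := ⟨1119613747200, 0, 0, 0⟩
  t01 := ⟨0, 2282057695232, 0, 0⟩
  t02 := ⟨6595749347328, 0, 0, 0⟩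
  t03 := ⟨0, 12788944470016, 0, 0⟩
  t10 := ⟨0, 33764149886976, 0, 0⟩
  t11 := ⟨0, 180897866907648, 0, 0⟩
  s00 := ⟨3083102453760, 0, 0, 0⟩
  s01 := ⟨0, 2516966178816, 0, 0⟩
  s02 := ⟨7713090568192, 0, 0, 0⟩
  s03 := ⟨0, 15307587715072, 0, 0⟩
  s10 := ⟨0, 5701817073664, 0, 0⟩
  s11 := ⟨0, 287982535245824, 0, 0⟩
  g00 := ⟨19514988160, 0, 0, 0⟩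
  g01 := ⟨498263168, 0, 0, 0⟩
  g10 := ⟨4987442569344, 0, 0, 0⟩
  g11 := ⟨0, 0, 0, 0⟩
  f00 := ⟨0, 23726705472, 0, 0⟩
  f01 := ⟨83390860096, 0, 0, 0⟩
  f10 := ⟨11549735263680, 0, 0, 0⟩
  f11 := ⟨0, 0, 0, 0⟩
  l000 := ⟨0, 0, 0, 0⟩
  l001 := ⟨0, 0, 0, 0⟩
  l002 := ⟨0, 0, 0, 0⟩
  l010 := ⟨0, 0, 0, 0⟩
  l011 := ⟨0, 0, 0, 0⟩
  l020 := ⟨0, 0, 0, 0⟩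
  l100 := ⟨0, 0, 0, 0⟩
  l101 := ⟨0, 0, 0, 0⟩
  l102 := ⟨0, 0, 0, 0⟩
  l110 := ⟨0, 0, 0, 0⟩
  l111 := ⟨0, 0, 0, 0⟩
  l120 := ⟨0, 0, 0, 0⟩
  l200 := ⟨0, 0, 0, 0⟩
  l201 := ⟨0, 0, 0, 0⟩
  l210 := ⟨0, 0, 0, 0⟩
  l300 := ⟨0, 0, 0, 0⟩
  l301 := ⟨0, 0, 0, 0⟩
  l310 := ⟨0, 0, 0, 0⟩
  l400 := ⟨0, 0, 0, 0⟩
  l401 := ⟨0, 0, 0, 0⟩
  l410 := ⟨0, 0, 0, 0⟩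
  l500 := ⟨0, 0, 0, 0⟩
  l501 := ⟨0, 0, 0, 0⟩
  l510 := ⟨0, 0, 0, 0⟩
  l600 := ⟨0, 0, 0, 0⟩
  l700 := ⟨0, 0, 0, 0⟩
  l800 := ⟨0, 0, 0, 0⟩
  l900 := ⟨0, 0, 0, 0⟩
  l1000 := ⟨0, 0, 0, 0⟩
  l1100 := ⟨0, 0, 0, 0⟩
  q00 := ⟨0, 0, 0, 0⟩
  q01 := ⟨0, 0, 0, 0⟩
  q02 := ⟨0, 0, 0, 0⟩
  q03 := ⟨0, 0, 0, 0⟩
  q10 := ⟨0, 0, 0, 0⟩
  q11 := ⟨0, 0, 0, 0⟩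
  q12 := ⟨0, 0, 0, 0⟩
  q20 := ⟨0, 0, 0, 0⟩
  q21 := ⟨0, 0, 0, 0⟩
  q30 := ⟨0, 0, 0, 0⟩
  n000 := ⟨0, 0, 0, 0⟩
  n001 := ⟨0, 0, 0, 0⟩
  n002 := ⟨0, 0, 0, 0⟩
  n010 := ⟨0, 0, 0, 0⟩
  n011 := ⟨0, 0, 0, 0⟩
  n020 := ⟨0, 0, 0, 0⟩
  n100 := ⟨0, 0, 0, 0⟩
  n101 := ⟨0, 0, 0, 0⟩
  n110 := ⟨0, 0, 0, 0⟩
  n200 := ⟨0, 0, 0, 0⟩
  n201 := ⟨0, 0, 0, 0⟩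
  n210 := ⟨0, 0, 0, 0⟩
  n300 := ⟨0, 0, 0, 0⟩
  n400 := ⟨0, 0, 0, 0⟩
  n500 := ⟨0, 0, 0, 0⟩
  e00 := ⟨0, 0, 0, 0⟩
  e01 := ⟨0, 0, 0, 0⟩
  e02 := ⟨0, 0, 0, 0⟩
  e03 := ⟨0, 0, 0, 0⟩
  e10 := ⟨0, 0, 0, 0⟩
  e11 := ⟨0, 0, 0, 0⟩
  B1 := 0

def p2 : Pm where
  ec := ⟨5888802816, 0, 0, 0⟩
  bc := ⟨0, 0, 0, 0⟩
  nn := ⟨3298534883328, 0, 0, 0⟩
  tj := ⟨8796093022208, 0, 0, 0⟩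
  ca := ⟨849866653696, 0, 0, 0⟩
  cb := ⟨779536564224, 0, 0, 0⟩
  cc := ⟨0, 0, 0, 0⟩
  ax := ⟨0, 0, 0, 0⟩
  ay := ⟨0, 0, 0, 0⟩
  xa := ⟨0, 0, 0, 0⟩
  C2 := ⟨0, 0, 0, 0⟩
  wr := ⟨0, 572035956736, 0, 0⟩
  wi := ⟨5872294035456, 0, 0, 0⟩
  w1 := ⟨0, 53395033423872, 0, 0⟩
  h000 := ⟨272971904, 0, 0, 0⟩
  h001 := ⟨489062528, 0, 0, 0⟩
  h002 := ⟨2656412416, 0, 0, 0⟩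
  h003 := ⟨0, 1306548416, 0, 0⟩
  h010 := ⟨0, 347497083008, 0, 0⟩
  h011 := ⟨676619660672, 0, 0, 0⟩
  h012 := ⟨0, 0, 0, 0⟩
  h020 := ⟨8480923749376, 0, 0, 0⟩
  h021 := ⟨0, 0, 0, 0⟩
  h030 := ⟨0, 0, 0, 0⟩
  h100 := ⟨188632576, 0, 0, 0⟩
  h101 := ⟨0, 966097280, 0, 0⟩
  h102 := ⟨0, 513224704, 0, 0⟩
  h110 := ⟨0, 52829926912, 0, 0⟩
  h111 := ⟨0, 343015587136, 0, 0⟩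
  h120 := ⟨0, 0, 0, 0⟩
  h200 := ⟨0, 233343552, 0, 0⟩
  h201 := ⟨194361024, 0, 0, 0⟩
  h202 := ⟨155037952, 0, 0, 0⟩
  h210 := ⟨23454181312, 0, 0, 0⟩
  h211 := ⟨0, 0, 0, 0⟩
  h300 := ⟨33256640, 0, 0, 0⟩
  h301 := ⟨0, 22647360, 0, 0⟩
  h310 := ⟨0, 323837248, 0, 0⟩
  h400 := ⟨2781952, 0, 0, 0⟩
  h401 := ⟨0, 864128, 0, 0⟩
  h410 := ⟨0, 0, 0, 0⟩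
  h500 := ⟨0, 1356160, 0, 0⟩
  h501 := ⟨0, 0, 0, 0⟩
  h600 := ⟨220928, 0, 0, 0⟩
  h700 := ⟨0, 0, 0, 0⟩
  h800 := ⟨0, 0, 0, 0⟩
  m000 := ⟨1097933979648, 0, 0, 0⟩
  m001 := ⟨311951360, 0, 0, 0⟩
  m002 := ⟨670236672, 0, 0, 0⟩
  m010 := ⟨267935940608, 0, 0, 0⟩
  m100 := ⟨3642032128, 0, 0, 0⟩
  m101 := ⟨62717952, 0, 0, 0⟩
  m110 := ⟨481827160064, 0, 0, 0⟩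
  m200 := ⟨0, 169410560, 0, 0⟩
  m300 := ⟨23134208, 0, 0, 0⟩
  a00 := ⟨95632752640, 0, 0, 0⟩
  a01 := ⟨0, 59648507904, 0, 0⟩
  a02 := ⟨442056179712, 0, 0, 0⟩
  a03 := ⟨0, 1183234457600, 0, 0⟩
  a10 := ⟨0, 6648886722560, 0, 0⟩
  a11 := ⟨0, 20281675022336, 0, 0⟩
  b00 := ⟨86528294912, 0, 0, 0⟩
  b01 := ⟨0, 64293896192, 0, 0⟩
  b02 := ⟨427414519808, 0, 0, 0⟩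
  b03 := ⟨0, 1126961184768, 0, 0⟩
  b10 := ⟨0, 8297230041088, 0, 0⟩
  b11 := ⟨0, 12402280169472, 0, 0⟩
  t00 := ⟨1010122358784, 0, 0, 0⟩
  t01 := ⟨0, 2088166817792, 0, 0⟩
  t02 := ⟨5932649545728, 0, 0, 0⟩
  t03 := ⟨0, 11327974866944, 0, 0⟩
  t10 := ⟨0, 57472810418176, 0, 0⟩
  t11 := ⟨0, 86152672509952, 0, 0⟩
  s00 := ⟨4202716200960, 0, 0, 0⟩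
  s01 := ⟨0, 4799023874048, 0, 0⟩
  s02 := ⟨14308839915520, 0, 0, 0⟩
  s03 := ⟨0, 28096532185088, 0, 0⟩
  s10 := ⟨0, 39465966960640, 0, 0⟩
  s11 := ⟨0, 468880402153472, 0, 0⟩
  g00 := ⟨19514988160, 0, 0, 0⟩
  g01 := ⟨498263168, 0, 0, 0⟩
  g10 := ⟨4987442569344, 0, 0, 0⟩
  g11 := ⟨0, 0, 0, 0⟩
  f00 := ⟨0, 23726705472, 0, 0⟩
  f01 := ⟨83390860096, 0, 0, 0⟩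
  f10 := ⟨11549735263680, 0, 0, 0⟩
  f11 := ⟨0, 0, 0, 0⟩
  l000 := ⟨0, 0, 0, 0⟩
  l001 := ⟨0, 0, 0, 0⟩
  l002 := ⟨0, 0, 0, 0⟩
  l010 := ⟨0, 0, 0, 0⟩
  l011 := ⟨0, 0, 0, 0⟩
  l020 := ⟨0, 0, 0, 0⟩
  l100 := ⟨0, 0, 0, 0⟩
  l101 := ⟨0, 0, 0, 0⟩
  l102 := ⟨0, 0, 0, 0⟩
  l110 := ⟨0, 0, 0, 0⟩
  l111 := ⟨0, 0, 0, 0⟩
  l120 := ⟨0, 0, 0, 0⟩
  l200 := ⟨0, 0, 0, 0⟩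
  l201 := ⟨0, 0, 0, 0⟩
  l210 := ⟨0, 0, 0, 0⟩
  l300 := ⟨0, 0, 0, 0⟩
  l301 := ⟨0, 0, 0, 0⟩
  l310 := ⟨0, 0, 0, 0⟩
  l400 := ⟨0, 0, 0, 0⟩
  l401 := ⟨0, 0, 0, 0⟩
  l410 := ⟨0, 0, 0, 0⟩
  l500 := ⟨0, 0, 0, 0⟩
  l501 := ⟨0, 0, 0, 0⟩
  l510 := ⟨0, 0, 0, 0⟩
  l600 := ⟨0, 0, 0, 0⟩
  l700 := ⟨0, 0, 0, 0⟩
  l800 := ⟨0, 0, 0, 0⟩
  l900 := ⟨0, 0, 0, 0⟩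
  l1000 := ⟨0, 0, 0, 0⟩
  l1100 := ⟨0, 0, 0, 0⟩
  q00 := ⟨0, 0, 0, 0⟩
  q01 := ⟨0, 0, 0, 0⟩
  q02 := ⟨0, 0, 0, 0⟩
  q03 := ⟨0, 0, 0, 0⟩
  q10 := ⟨0, 0, 0, 0⟩
  q11 := ⟨0, 0, 0, 0⟩
  q12 := ⟨0, 0, 0, 0⟩
  q20 := ⟨0, 0, 0, 0⟩
  q21 := ⟨0, 0, 0, 0⟩
  q30 := ⟨0, 0, 0, 0⟩
  n000 := ⟨0, 0, 0, 0⟩
  n001 := ⟨0, 0, 0, 0⟩
  n002 := ⟨0, 0, 0, 0⟩
  n010 := ⟨0, 0, 0, 0⟩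
  n011 := ⟨0, 0, 0, 0⟩
  n020 := ⟨0, 0, 0, 0⟩
  n100 := ⟨0, 0, 0, 0⟩
  n101 := ⟨0, 0, 0, 0⟩
  n110 := ⟨0, 0, 0, 0⟩
  n200 := ⟨0, 0, 0, 0⟩
  n201 := ⟨0, 0, 0, 0⟩
  n210 := ⟨0, 0, 0, 0⟩
  n300 := ⟨0, 0, 0, 0⟩
  n400 := ⟨0, 0, 0, 0⟩
  n500 := ⟨0, 0, 0, 0⟩
  e00 := ⟨0, 0, 0, 0⟩
  e01 := ⟨0, 0, 0, 0⟩
  e02 := ⟨0, 0, 0, 0⟩
  e03 := ⟨0, 0, 0, 0⟩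
  e10 := ⟨0, 0, 0, 0⟩
  e11 := ⟨0, 0, 0, 0⟩
  B1 := 0

def p3 : Pm where
  ec := ⟨5888802816, 0, 0, 0⟩
  bc := ⟨0, 0, 0, 0⟩
  nn := ⟨4398046511104, 0, 0, 0⟩
  tj := ⟨10995116277760, 0, 0, 0⟩
  ca := ⟨779536564224, 0, 0, 0⟩
  cb := ⟨710280216576, 0, 0, 0⟩
  cc := ⟨0, 0, 0, 0⟩
  ax := ⟨0, 0, 0, 0⟩
  ay := ⟨0, 0, 0, 0⟩
  xa := ⟨0, 0, 0, 0⟩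
  C2 := ⟨0, 0, 0, 0⟩
  wr := ⟨0, 572035956736, 0, 0⟩
  wi := ⟨5872294035456, 0, 0, 0⟩
  w1 := ⟨0, 53395033423872, 0, 0⟩
  h000 := ⟨272971904, 0, 0, 0⟩
  h001 := ⟨489062528, 0, 0, 0⟩
  h002 := ⟨2656412416, 0, 0, 0⟩
  h003 := ⟨0, 1306548416, 0, 0⟩
  h010 := ⟨0, 347497083008, 0, 0⟩
  h011 := ⟨676619660672, 0, 0, 0⟩
  h012 := ⟨0, 0, 0, 0⟩
  h020 := ⟨8480923749376, 0, 0, 0⟩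
  h021 := ⟨0, 0, 0, 0⟩
  h030 := ⟨0, 0, 0, 0⟩
  h100 := ⟨188632576, 0, 0, 0⟩
  h101 := ⟨0, 966097280, 0, 0⟩
  h102 := ⟨0, 513224704, 0, 0⟩
  h110 := ⟨0, 52829926912, 0, 0⟩
  h111 := ⟨0, 343015587136, 0, 0⟩
  h120 := ⟨0, 0, 0, 0⟩
  h200 := ⟨0, 233343552, 0, 0⟩
  h201 := ⟨194361024, 0, 0, 0⟩
  h202 := ⟨155037952, 0, 0, 0⟩
  h210 := ⟨23454181312, 0, 0, 0⟩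
  h211 := ⟨0, 0, 0, 0⟩
  h300 := ⟨33256640, 0, 0, 0⟩
  h301 := ⟨0, 22647360, 0, 0⟩
  h310 := ⟨0, 323837248, 0, 0⟩
  h400 := ⟨2781952, 0, 0, 0⟩
  h401 := ⟨0, 864128, 0, 0⟩
  h410 := ⟨0, 0, 0, 0⟩
  h500 := ⟨0, 1356160, 0, 0⟩
  h501 := ⟨0, 0, 0, 0⟩
  h600 := ⟨220928, 0, 0, 0⟩
  h700 := ⟨0, 0, 0, 0⟩
  h800 := ⟨0, 0, 0, 0⟩
  m000 := ⟨1098264150016, 0, 0, 0⟩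
  m001 := ⟨247529472, 0, 0, 0⟩
  m002 := ⟨1023148032, 0, 0, 0⟩
  m010 := ⟨290131935232, 0, 0, 0⟩
  m100 := ⟨3544186880, 0, 0, 0⟩
  m101 := ⟨60489728, 0, 0, 0⟩
  m110 := ⟨491645239296, 0, 0, 0⟩
  m200 := ⟨0, 150142976, 0, 0⟩
  m300 := ⟨20643840, 0, 0, 0⟩
  a00 := ⟨86528294912, 0, 0, 0⟩
  a01 := ⟨0, 64293896192, 0, 0⟩
  a02 := ⟨427414519808, 0, 0, 0⟩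
  a03 := ⟨0, 1126961184768, 0, 0⟩
  a10 := ⟨0, 8297230041088, 0, 0⟩
  a11 := ⟨0, 12402280169472, 0, 0⟩
  b00 := ⟨78619148288, 0, 0, 0⟩
  b01 := ⟨0, 65803517952, 0, 0⟩
  b02 := ⟨393744941056, 0, 0, 0⟩
  b03 := ⟨0, 1018604552192, 0, 0⟩
  b10 := ⟨0, 9565137076224, 0, 0⟩
  b11 := ⟨0, 6161257267200, 0, 0⟩
  t00 := ⟨914018598912, 0, 0, 0⟩
  t01 := ⟨0, 1923936288768, 0, 0⟩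
  t02 := ⟨5582169374720, 0, 0, 0⟩
  t03 := ⟨0, 10760791523328, 0, 0⟩
  t10 := ⟨0, 76334547402752, 0, 0⟩
  t11 := ⟨0, 9829395988480, 0, 0⟩
  s00 := ⟨5212838559744, 0, 0, 0⟩
  s01 := ⟨0, 6887190691840, 0, 0⟩
  s02 := ⟨20241489461248, 0, 0, 0⟩
  s03 := ⟨0, 39424507052032, 0, 0⟩
  s10 := ⟨0, 96938777378816, 0, 0⟩
  s11 := ⟨0, 555033074663424, 0, 0⟩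
  g00 := ⟨19514988160, 0, 0, 0⟩
  g01 := ⟨498263168, 0, 0, 0⟩
  g10 := ⟨4987442569344, 0, 0, 0⟩
  g11 := ⟨0, 0, 0, 0⟩
  f00 := ⟨0, 23726705472, 0, 0⟩
  f01 := ⟨83390860096, 0, 0, 0⟩
  f10 := ⟨11549735263680, 0, 0, 0⟩
  f11 := ⟨0, 0, 0, 0⟩
  l000 := ⟨0, 0, 0, 0⟩
  l001 := ⟨0, 0, 0, 0⟩
  l002 := ⟨0, 0, 0, 0⟩
  l010 := ⟨0, 0, 0, 0⟩
  l011 := ⟨0, 0, 0, 0⟩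
  l020 := ⟨0, 0, 0, 0⟩
  l100 := ⟨0, 0, 0, 0⟩
  l101 := ⟨0, 0, 0, 0⟩
  l102 := ⟨0, 0, 0, 0⟩
  l110 := ⟨0, 0, 0, 0⟩
  l111 := ⟨0, 0, 0, 0⟩
  l120 := ⟨0, 0, 0, 0⟩
  l200 := ⟨0, 0, 0, 0⟩
  l201 := ⟨0, 0, 0, 0⟩
  l210 := ⟨0, 0, 0, 0⟩
  l300 := ⟨0, 0, 0, 0⟩
  l301 := ⟨0, 0, 0, 0⟩
  l310 := ⟨0, 0, 0, 0⟩
  l400 := ⟨0, 0, 0, 0⟩
  l401 := ⟨0, 0, 0, 0⟩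
  l410 := ⟨0, 0, 0, 0⟩
  l500 := ⟨0, 0, 0, 0⟩
  l501 := ⟨0, 0, 0, 0⟩
  l510 := ⟨0, 0, 0, 0⟩
  l600 := ⟨0, 0, 0, 0⟩
  l700 := ⟨0, 0, 0, 0⟩
  l800 := ⟨0, 0, 0, 0⟩
  l900 := ⟨0, 0, 0, 0⟩
  l1000 := ⟨0, 0, 0, 0⟩
  l1100 := ⟨0, 0, 0, 0⟩
  q00 := ⟨0, 0, 0, 0⟩
  q01 := ⟨0, 0, 0, 0⟩
  q02 := ⟨0, 0, 0, 0⟩
  q03 := ⟨0, 0, 0, 0⟩
  q10 := ⟨0, 0, 0, 0⟩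
  q11 := ⟨0, 0, 0, 0⟩
  q12 := ⟨0, 0, 0, 0⟩
  q20 := ⟨0, 0, 0, 0⟩
  q21 := ⟨0, 0, 0, 0⟩
  q30 := ⟨0, 0, 0, 0⟩
  n000 := ⟨0, 0, 0, 0⟩
  n001 := ⟨0, 0, 0, 0⟩
  n002 := ⟨0, 0, 0, 0⟩
  n010 := ⟨0, 0, 0, 0⟩
  n011 := ⟨0, 0, 0, 0⟩
  n020 := ⟨0, 0, 0, 0⟩
  n100 := ⟨0, 0, 0, 0⟩
  n101 := ⟨0, 0, 0, 0⟩
  n110 := ⟨0, 0, 0, 0⟩
  n200 := ⟨0, 0, 0, 0⟩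
  n201 := ⟨0, 0, 0, 0⟩
  n210 := ⟨0, 0, 0, 0⟩
  n300 := ⟨0, 0, 0, 0⟩
  n400 := ⟨0, 0, 0, 0⟩
  n500 := ⟨0, 0, 0, 0⟩
  e00 := ⟨0, 0, 0, 0⟩
  e01 := ⟨0, 0, 0, 0⟩
  e02 := ⟨0, 0, 0, 0⟩
  e03 := ⟨0, 0, 0, 0⟩
  e10 := ⟨0, 0, 0, 0⟩
  e11 := ⟨0, 0, 0, 0⟩
  B1 := 0

def p4 : Pm where
  ec := ⟨5888802816, 0, 0, 0⟩
  bc := ⟨0, 0, 0, 0⟩
  nn := ⟨5497558138880, 0, 0, 0⟩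
  tj := ⟨13194139533312, 0, 0, 0⟩
  ca := ⟨710280216576, 0, 0, 0⟩
  cb := ⟨639950127104, 0, 0, 0⟩
  cc := ⟨0, 0, 0, 0⟩
  ax := ⟨0, 0, 0, 0⟩
  ay := ⟨0, 0, 0, 0⟩
  xa := ⟨0, 0, 0, 0⟩
  C2 := ⟨0, 0, 0, 0⟩
  wr := ⟨0, 572035956736, 0, 0⟩
  wi := ⟨5872294035456, 0, 0, 0⟩
  w1 := ⟨0, 53395033423872, 0, 0⟩
  h000 := ⟨272971904, 0, 0, 0⟩
  h001 := ⟨489062528, 0, 0, 0⟩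
  h002 := ⟨2656412416, 0, 0, 0⟩
  h003 := ⟨0, 1306548416, 0, 0⟩
  h010 := ⟨0, 347497083008, 0, 0⟩
  h011 := ⟨676619660672, 0, 0, 0⟩
  h012 := ⟨0, 0, 0, 0⟩
  h020 := ⟨8480923749376, 0, 0, 0⟩
  h021 := ⟨0, 0, 0, 0⟩
  h030 := ⟨0, 0, 0, 0⟩
  h100 := ⟨188632576, 0, 0, 0⟩
  h101 := ⟨0, 966097280, 0, 0⟩
  h102 := ⟨0, 513224704, 0, 0⟩
  h110 := ⟨0, 52829926912, 0, 0⟩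
  h111 := ⟨0, 343015587136, 0, 0⟩
  h120 := ⟨0, 0, 0, 0⟩
  h200 := ⟨0, 233343552, 0, 0⟩
  h201 := ⟨194361024, 0, 0, 0⟩
  h202 := ⟨155037952, 0, 0, 0⟩
  h210 := ⟨23454181312, 0, 0, 0⟩
  h211 := ⟨0, 0, 0, 0⟩
  h300 := ⟨33256640, 0, 0, 0⟩
  h301 := ⟨0, 22647360, 0, 0⟩
  h310 := ⟨0, 323837248, 0, 0⟩
  h400 := ⟨2781952, 0, 0, 0⟩
  h401 := ⟨0, 864128, 0, 0⟩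
  h410 := ⟨0, 0, 0, 0⟩
  h500 := ⟨0, 1356160, 0, 0⟩
  h501 := ⟨0, 0, 0, 0⟩
  h600 := ⟨220928, 0, 0, 0⟩
  h700 := ⟨0, 0, 0, 0⟩
  h800 := ⟨0, 0, 0, 0⟩
  m000 := ⟨1098573742080, 0, 0, 0⟩
  m001 := ⟨141950976, 0, 0, 0⟩
  m002 := ⟨1238237184, 0, 0, 0⟩
  m010 := ⟨300988891136, 0, 0, 0⟩
  m100 := ⟨3453878272, 0, 0, 0⟩
  m101 := ⟨55246848, 0, 0, 0⟩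
  m110 := ⟨497833148416, 0, 0, 0⟩
  m200 := ⟨0, 131792896, 0, 0⟩
  m300 := ⟨18284544, 0, 0, 0⟩
  a00 := ⟨78619148288, 0, 0, 0⟩
  a01 := ⟨0, 65803517952, 0, 0⟩
  a02 := ⟨393744941056, 0, 0, 0⟩
  a03 := ⟨0, 1018604552192, 0, 0⟩
  a10 := ⟨0, 9565137076224, 0, 0⟩
  a11 := ⟨0, 6161257267200, 0, 0⟩
  b00 := ⟨71684915200, 0, 0, 0⟩
  b01 := ⟨0, 65714192384, 0, 0⟩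
  b02 := ⟨354494971904, 0, 0, 0⟩
  b03 := ⟨0, 897141440512, 0, 0⟩
  b10 := ⟨0, 10514418106368, 0, 0⟩
  b11 := ⟨0, 1326526300160, 0, 0⟩
  t00 := ⟨830552211456, 0, 0, 0⟩
  t01 := ⟨0, 1774807351296, 0, 0⟩
  t02 := ⟨5321477980160, 0, 0, 0⟩
  t03 := ⟨0, 10489192251392, 0, 0⟩
  t10 := ⟨0, 90548230553600, 0, 0⟩
  t11 := ⟨49320607875072, 0, 0, 0⟩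
  s00 := ⟨6126857158656, 0, 0, 0⟩
  s01 := ⟨0, 8811126980608, 0, 0⟩
  s02 := ⟨25823658835968, 0, 0, 0⟩
  s03 := ⟨0, 50185298575360, 0, 0⟩
  s10 := ⟨0, 173273324781568, 0, 0⟩
  s11 := ⟨0, 564862470651904, 0, 0⟩
  g00 := ⟨19514988160, 0, 0, 0⟩
  g01 := ⟨498263168, 0, 0, 0⟩
  g10 := ⟨4987442569344, 0, 0, 0⟩
  g11 := ⟨0, 0, 0, 0⟩
  f00 := ⟨0, 23726705472, 0, 0⟩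
  f01 := ⟨83390860096, 0, 0, 0⟩
  f10 := ⟨11549735263680, 0, 0, 0⟩
  f11 := ⟨0, 0, 0, 0⟩
  l000 := ⟨0, 0, 0, 0⟩
  l001 := ⟨0, 0, 0, 0⟩
  l002 := ⟨0, 0, 0, 0⟩
  l010 := ⟨0, 0, 0, 0⟩
  l011 := ⟨0, 0, 0, 0⟩
  l020 := ⟨0, 0, 0, 0⟩
  l100 := ⟨0, 0, 0, 0⟩
  l101 := ⟨0, 0, 0, 0⟩
  l102 := ⟨0, 0, 0, 0⟩
  l110 := ⟨0, 0, 0, 0⟩
  l111 := ⟨0, 0, 0, 0⟩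
  l120 := ⟨0, 0, 0, 0⟩
  l200 := ⟨0, 0, 0, 0⟩
  l201 := ⟨0, 0, 0, 0⟩
  l210 := ⟨0, 0, 0, 0⟩
  l300 := ⟨0, 0, 0, 0⟩
  l301 := ⟨0, 0, 0, 0⟩
  l310 := ⟨0, 0, 0, 0⟩
  l400 := ⟨0, 0, 0, 0⟩
  l401 := ⟨0, 0, 0, 0⟩
  l410 := ⟨0, 0, 0, 0⟩
  l500 := ⟨0, 0, 0, 0⟩
  l501 := ⟨0, 0, 0, 0⟩
  l510 := ⟨0, 0, 0, 0⟩
  l600 := ⟨0, 0, 0, 0⟩
  l700 := ⟨0, 0, 0, 0⟩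
  l800 := ⟨0, 0, 0, 0⟩
  l900 := ⟨0, 0, 0, 0⟩
  l1000 := ⟨0, 0, 0, 0⟩
  l1100 := ⟨0, 0, 0, 0⟩
  q00 := ⟨0, 0, 0, 0⟩
  q01 := ⟨0, 0, 0, 0⟩
  q02 := ⟨0, 0, 0, 0⟩
  q03 := ⟨0, 0, 0, 0⟩
  q10 := ⟨0, 0, 0, 0⟩
  q11 := ⟨0, 0, 0, 0⟩
  q12 := ⟨0, 0, 0, 0⟩
  q20 := ⟨0, 0, 0, 0⟩
  q21 := ⟨0, 0, 0, 0⟩
  q30 := ⟨0, 0, 0, 0⟩
  n000 := ⟨0, 0, 0, 0⟩
  n001 := ⟨0, 0, 0, 0⟩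
  n002 := ⟨0, 0, 0, 0⟩
  n010 := ⟨0, 0, 0, 0⟩
  n011 := ⟨0, 0, 0, 0⟩
  n020 := ⟨0, 0, 0, 0⟩
  n100 := ⟨0, 0, 0, 0⟩
  n101 := ⟨0, 0, 0, 0⟩
  n110 := ⟨0, 0, 0, 0⟩
  n200 := ⟨0, 0, 0, 0⟩
  n201 := ⟨0, 0, 0, 0⟩
  n210 := ⟨0, 0, 0, 0⟩
  n300 := ⟨0, 0, 0, 0⟩
  n400 := ⟨0, 0, 0, 0⟩
  n500 := ⟨0, 0, 0, 0⟩
  e00 := ⟨0, 0, 0, 0⟩
  e01 := ⟨0, 0, 0, 0⟩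
  e02 := ⟨0, 0, 0, 0⟩
  e03 := ⟨0, 0, 0, 0⟩
  e10 := ⟨0, 0, 0, 0⟩
  e11 := ⟨0, 0, 0, 0⟩
  B1 := 0

def p5 : Pm where
  ec := ⟨5888802816, 0, 0, 0⟩
  bc := ⟨0, 0, 0, 0⟩
  nn := ⟨6597069766656, 0, 0, 0⟩
  tj := ⟨15393162788864, 0, 0, 0⟩
  ca := ⟨639950127104, 0, 0, 0⟩
  cb := ⟨570693779456, 0, 0, 0⟩
  cc := ⟨0, 0, 0, 0⟩
  ax := ⟨0, 0, 0, 0⟩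
  ay := ⟨0, 0, 0, 0⟩
  xa := ⟨0, 0, 0, 0⟩
  C2 := ⟨0, 0, 0, 0⟩
  wr := ⟨0, 572035956736, 0, 0⟩
  wi := ⟨5872294035456, 0, 0, 0⟩
  w1 := ⟨0, 53395033423872, 0, 0⟩
  h000 := ⟨272971904, 0, 0, 0⟩
  h001 := ⟨489062528, 0, 0, 0⟩
  h002 := ⟨2656412416, 0, 0, 0⟩
  h003 := ⟨0, 1306548416, 0, 0⟩
  h010 := ⟨0, 347497083008, 0, 0⟩
  h011 := ⟨676619660672, 0, 0, 0⟩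
  h012 := ⟨0, 0, 0, 0⟩
  h020 := ⟨8480923749376, 0, 0, 0⟩
  h021 := ⟨0, 0, 0, 0⟩
  h030 := ⟨0, 0, 0, 0⟩
  h100 := ⟨188632576, 0, 0, 0⟩
  h101 := ⟨0, 966097280, 0, 0⟩
  h102 := ⟨0, 513224704, 0, 0⟩
  h110 := ⟨0, 52829926912, 0, 0⟩
  h111 := ⟨0, 343015587136, 0, 0⟩
  h120 := ⟨0, 0, 0, 0⟩
  h200 := ⟨0, 233343552, 0, 0⟩
  h201 := ⟨194361024, 0, 0, 0⟩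
  h202 := ⟨155037952, 0, 0, 0⟩
  h210 := ⟨23454181312, 0, 0, 0⟩
  h211 := ⟨0, 0, 0, 0⟩
  h300 := ⟨33256640, 0, 0, 0⟩
  h301 := ⟨0, 22647360, 0, 0⟩
  h310 := ⟨0, 323837248, 0, 0⟩
  h400 := ⟨2781952, 0, 0, 0⟩
  h401 := ⟨0, 864128, 0, 0⟩
  h410 := ⟨0, 0, 0, 0⟩
  h500 := ⟨0, 1356160, 0, 0⟩
  h501 := ⟨0, 0, 0, 0⟩
  h600 := ⟨220928, 0, 0, 0⟩
  h700 := ⟨0, 0, 0, 0⟩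
  h800 := ⟨0, 0, 0, 0⟩
  m000 := ⟨1098852007936, 0, 0, 0⟩
  m001 := ⟨13041664, 0, 0, 0⟩
  m002 := ⟨1282867200, 0, 0, 0⟩
  m010 := ⟨295137378304, 0, 0, 0⟩
  m100 := ⟨3371106304, 0, 0, 0⟩
  m101 := ⟨52428800, 0, 0, 0⟩
  m110 := ⟨501438480384, 0, 0, 0⟩
  m200 := ⟨0, 114819072, 0, 0⟩
  m300 := ⟨16056320, 0, 0, 0⟩
  a00 := ⟨71684915200, 0, 0, 0⟩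
  a01 := ⟨0, 65714192384, 0, 0⟩
  a02 := ⟨354494971904, 0, 0, 0⟩
  a03 := ⟨0, 897141440512, 0, 0⟩
  a10 := ⟨0, 10514418106368, 0, 0⟩
  a11 := ⟨0, 1326526300160, 0, 0⟩
  b00 := ⟨65610448896, 0, 0, 0⟩
  b01 := ⟨0, 65904508928, 0, 0⟩
  b02 := ⟨325728010240, 0, 0, 0⟩
  b03 := ⟨0, 803518808064, 0, 0⟩
  b10 := ⟨0, 11308748308480, 0, 0⟩
  b11 := ⟨2532157161472, 0, 0, 0⟩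
  t00 := ⟨757361213440, 0, 0, 0⟩
  t01 := ⟨0, 1619535069184, 0, 0⟩
  t02 := ⟨4898128592896, 0, 0, 0⟩
  t03 := ⟨0, 9831284211712, 0, 0⟩
  t10 := ⟨0, 101624236343296, 0, 0⟩
  t11 := ⟨94928358146048, 0, 0, 0⟩
  s00 := ⟨6957409370112, 0, 0, 0⟩
  s01 := ⟨0, 10585934331904, 0, 0⟩
  s02 := ⟨31145136816128, 0, 0, 0⟩
  s03 := ⟨0, 60674490826752, 0, 0⟩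
  s10 := ⟨0, 263821555335168, 0, 0⟩
  s11 := ⟨0, 515541862776832, 0, 0⟩
  g00 := ⟨19514988160, 0, 0, 0⟩
  g01 := ⟨498263168, 0, 0, 0⟩
  g10 := ⟨4987442569344, 0, 0, 0⟩
  g11 := ⟨0, 0, 0, 0⟩
  f00 := ⟨0, 23726705472, 0, 0⟩
  f01 := ⟨83390860096, 0, 0, 0⟩
  f10 := ⟨11549735263680, 0, 0, 0⟩
  f11 := ⟨0, 0, 0, 0⟩
  l000 := ⟨0, 0, 0, 0⟩
  l001 := ⟨0, 0, 0, 0⟩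
  l002 := ⟨0, 0, 0, 0⟩
  l010 := ⟨0, 0, 0, 0⟩
  l011 := ⟨0, 0, 0, 0⟩
  l020 := ⟨0, 0, 0, 0⟩
  l100 := ⟨0, 0, 0, 0⟩
  l101 := ⟨0, 0, 0, 0⟩
  l102 := ⟨0, 0, 0, 0⟩
  l110 := ⟨0, 0, 0, 0⟩
  l111 := ⟨0, 0, 0, 0⟩
  l120 := ⟨0, 0, 0, 0⟩
  l200 := ⟨0, 0, 0, 0⟩
  l201 := ⟨0, 0, 0, 0⟩
  l210 := ⟨0, 0, 0, 0⟩
  l300 := ⟨0, 0, 0, 0⟩
  l301 := ⟨0, 0, 0, 0⟩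
  l310 := ⟨0, 0, 0, 0⟩
  l400 := ⟨0, 0, 0, 0⟩
  l401 := ⟨0, 0, 0, 0⟩
  l410 := ⟨0, 0, 0, 0⟩
  l500 := ⟨0, 0, 0, 0⟩
  l501 := ⟨0, 0, 0, 0⟩
  l510 := ⟨0, 0, 0, 0⟩
  l600 := ⟨0, 0, 0, 0⟩
  l700 := ⟨0, 0, 0, 0⟩
  l800 := ⟨0, 0, 0, 0⟩
  l900 := ⟨0, 0, 0, 0⟩
  l1000 := ⟨0, 0, 0, 0⟩
  l1100 := ⟨0, 0, 0, 0⟩
  q00 := ⟨0, 0, 0, 0⟩
  q01 := ⟨0, 0, 0, 0⟩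
  q02 := ⟨0, 0, 0, 0⟩
  q03 := ⟨0, 0, 0, 0⟩
  q10 := ⟨0, 0, 0, 0⟩
  q11 := ⟨0, 0, 0, 0⟩
  q12 := ⟨0, 0, 0, 0⟩
  q20 := ⟨0, 0, 0, 0⟩
  q21 := ⟨0, 0, 0, 0⟩
  q30 := ⟨0, 0, 0, 0⟩
  n000 := ⟨0, 0, 0, 0⟩
  n001 := ⟨0, 0, 0, 0⟩
  n002 := ⟨0, 0, 0, 0⟩
  n010 := ⟨0, 0, 0, 0⟩
  n011 := ⟨0, 0, 0, 0⟩
  n020 := ⟨0, 0, 0, 0⟩
  n100 := ⟨0, 0, 0, 0⟩
  n101 := ⟨0, 0, 0, 0⟩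
  n110 := ⟨0, 0, 0, 0⟩
  n200 := ⟨0, 0, 0, 0⟩
  n201 := ⟨0, 0, 0, 0⟩
  n210 := ⟨0, 0, 0, 0⟩
  n300 := ⟨0, 0, 0, 0⟩
  n400 := ⟨0, 0, 0, 0⟩
  n500 := ⟨0, 0, 0, 0⟩
  e00 := ⟨0, 0, 0, 0⟩
  e01 := ⟨0, 0, 0, 0⟩
  e02 := ⟨0, 0, 0, 0⟩
  e03 := ⟨0, 0, 0, 0⟩
  e10 := ⟨0, 0, 0, 0⟩
  e11 := ⟨0, 0, 0, 0⟩
  B1 := 0

def p6 : Pm where
  ec := ⟨5888802816, 0, 0, 0⟩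
  bc := ⟨0, 0, 0, 0⟩
  nn := ⟨7696581394432, 0, 0, 0⟩
  tj := ⟨17592186044416, 0, 0, 0⟩
  ca := ⟨570693779456, 0, 0, 0⟩
  cb := ⟨500363689984, 0, 0, 0⟩
  cc := ⟨0, 0, 0, 0⟩
  ax := ⟨0, 0, 0, 0⟩
  ay := ⟨0, 0, 0, 0⟩
  xa := ⟨0, 0, 0, 0⟩
  C2 := ⟨0, 0, 0, 0⟩
  wr := ⟨0, 572035956736, 0, 0⟩
  wi := ⟨5872294035456, 0, 0, 0⟩
  w1 := ⟨0, 53395033423872, 0, 0⟩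
  h000 := ⟨272971904, 0, 0, 0⟩
  h001 := ⟨489062528, 0, 0, 0⟩
  h002 := ⟨2656412416, 0, 0, 0⟩
  h003 := ⟨0, 1306548416, 0, 0⟩
  h010 := ⟨0, 347497083008, 0, 0⟩
  h011 := ⟨676619660672, 0, 0, 0⟩
  h012 := ⟨0, 0, 0, 0⟩
  h020 := ⟨8480923749376, 0, 0, 0⟩
  h021 := ⟨0, 0, 0, 0⟩
  h030 := ⟨0, 0, 0, 0⟩
  h100 := ⟨188632576, 0, 0, 0⟩
  h101 := ⟨0, 966097280, 0, 0⟩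
  h102 := ⟨0, 513224704, 0, 0⟩
  h110 := ⟨0, 52829926912, 0, 0⟩
  h111 := ⟨0, 343015587136, 0, 0⟩
  h120 := ⟨0, 0, 0, 0⟩
  h200 := ⟨0, 233343552, 0, 0⟩
  h201 := ⟨194361024, 0, 0, 0⟩
  h202 := ⟨155037952, 0, 0, 0⟩
  h210 := ⟨23454181312, 0, 0, 0⟩
  h211 := ⟨0, 0, 0, 0⟩
  h300 := ⟨33256640, 0, 0, 0⟩
  h301 := ⟨0, 22647360, 0, 0⟩
  h310 := ⟨0, 323837248, 0, 0⟩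
  h400 := ⟨2781952, 0, 0, 0⟩
  h401 := ⟨0, 864128, 0, 0⟩
  h410 := ⟨0, 0, 0, 0⟩
  h500 := ⟨0, 1356160, 0, 0⟩
  h501 := ⟨0, 0, 0, 0⟩
  h600 := ⟨220928, 0, 0, 0⟩
  h700 := ⟨0, 0, 0, 0⟩
  h800 := ⟨0, 0, 0, 0⟩
  m000 := ⟨1099100913664, 0, 0, 0⟩
  m001 := ⟨0, 115474432, 0, 0⟩
  m002 := ⟨1157890048, 0, 0, 0⟩
  m010 := ⟨271617753088, 0, 0, 0⟩
  m100 := ⟨3294756864, 0, 0, 0⟩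
  m101 := ⟨52887552, 0, 0, 0⟩
  m110 := ⟨504280580096, 0, 0, 0⟩
  m200 := ⟨0, 98893824, 0, 0⟩
  m300 := ⟨13959168, 0, 0, 0⟩
  a00 := ⟨65610448896, 0, 0, 0⟩
  a01 := ⟨0, 65904508928, 0, 0⟩
  a02 := ⟨325728010240, 0, 0, 0⟩
  a03 := ⟨0, 803518808064, 0, 0⟩
  a10 := ⟨0, 11308748308480, 0, 0⟩
  a11 := ⟨2532157161472, 0, 0, 0⟩
  b00 := ⟨60161589248, 0, 0, 0⟩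
  b01 := ⟨0, 66193522688, 0, 0⟩
  b02 := ⟨303088271360, 0, 0, 0⟩
  b03 := ⟨0, 724133019648, 0, 0⟩
  b10 := ⟨0, 11939536699392, 0, 0⟩
  b11 := ⟨5438929108992, 0, 0, 0⟩
  t00 := ⟨693233254400, 0, 0, 0⟩
  t01 := ⟨0, 1478216777728, 0, 0⟩
  t02 := ⟨4395627053056, 0, 0, 0⟩
  t03 := ⟨0, 8831161925632, 0, 0⟩
  t10 := ⟨0, 110556926705664, 0, 0⟩
  t11 := ⟨129145559121920, 0, 0, 0⟩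
  s00 := ⟨7714770583552, 0, 0, 0⟩
  s01 := ⟨0, 12205469401088, 0, 0⟩
  s02 := ⟨36043265409024, 0, 0, 0⟩
  s03 := ⟨0, 70505775038464, 0, 0⟩
  s10 := ⟨0, 365445791678464, 0, 0⟩
  s11 := ⟨0, 420613504630784, 0, 0⟩
  g00 := ⟨19514988160, 0, 0, 0⟩
  g01 := ⟨498263168, 0, 0, 0⟩
  g10 := ⟨4987442569344, 0, 0, 0⟩
  g11 := ⟨0, 0, 0, 0⟩
  f00 := ⟨0, 23726705472, 0, 0⟩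
  f01 := ⟨83390860096, 0, 0, 0⟩
  f10 := ⟨11549735263680, 0, 0, 0⟩
  f11 := ⟨0, 0, 0, 0⟩
  l000 := ⟨0, 0, 0, 0⟩
  l001 := ⟨0, 0, 0, 0⟩
  l002 := ⟨0, 0, 0, 0⟩
  l010 := ⟨0, 0, 0, 0⟩
  l011 := ⟨0, 0, 0, 0⟩
  l020 := ⟨0, 0, 0, 0⟩
  l100 := ⟨0, 0, 0, 0⟩
  l101 := ⟨0, 0, 0, 0⟩
  l102 := ⟨0, 0, 0, 0⟩
  l110 := ⟨0, 0, 0, 0⟩
  l111 := ⟨0, 0, 0, 0⟩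
  l120 := ⟨0, 0, 0, 0⟩
  l200 := ⟨0, 0, 0, 0⟩
  l201 := ⟨0, 0, 0, 0⟩
  l210 := ⟨0, 0, 0, 0⟩
  l300 := ⟨0, 0, 0, 0⟩
  l301 := ⟨0, 0, 0, 0⟩
  l310 := ⟨0, 0, 0, 0⟩
  l400 := ⟨0, 0, 0, 0⟩
  l401 := ⟨0, 0, 0, 0⟩
  l410 := ⟨0, 0, 0, 0⟩
  l500 := ⟨0, 0, 0, 0⟩
  l501 := ⟨0, 0, 0, 0⟩
  l510 := ⟨0, 0, 0, 0⟩
  l600 := ⟨0, 0, 0, 0⟩
  l700 := ⟨0, 0, 0, 0⟩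
  l800 := ⟨0, 0, 0, 0⟩
  l900 := ⟨0, 0, 0, 0⟩
  l1000 := ⟨0, 0, 0, 0⟩
  l1100 := ⟨0, 0, 0, 0⟩
  q00 := ⟨0, 0, 0, 0⟩
  q01 := ⟨0, 0, 0, 0⟩
  q02 := ⟨0, 0, 0, 0⟩
  q03 := ⟨0, 0, 0, 0⟩
  q10 := ⟨0, 0, 0, 0⟩
  q11 := ⟨0, 0, 0, 0⟩
  q12 := ⟨0, 0, 0, 0⟩
  q20 := ⟨0, 0, 0, 0⟩
  q21 := ⟨0, 0, 0, 0⟩
  q30 := ⟨0, 0, 0, 0⟩
  n000 := ⟨0, 0, 0, 0⟩
  n001 := ⟨0, 0, 0, 0⟩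
  n002 := ⟨0, 0, 0, 0⟩
  n010 := ⟨0, 0, 0, 0⟩
  n011 := ⟨0, 0, 0, 0⟩
  n020 := ⟨0, 0, 0, 0⟩
  n100 := ⟨0, 0, 0, 0⟩
  n101 := ⟨0, 0, 0, 0⟩
  n110 := ⟨0, 0, 0, 0⟩
  n200 := ⟨0, 0, 0, 0⟩
  n201 := ⟨0, 0, 0, 0⟩
  n210 := ⟨0, 0, 0, 0⟩
  n300 := ⟨0, 0, 0, 0⟩
  n400 := ⟨0, 0, 0, 0⟩
  n500 := ⟨0, 0, 0, 0⟩
  e00 := ⟨0, 0, 0, 0⟩
  e01 := ⟨0, 0, 0, 0⟩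
  e02 := ⟨0, 0, 0, 0⟩
  e03 := ⟨0, 0, 0, 0⟩
  e10 := ⟨0, 0, 0, 0⟩
  e11 := ⟨0, 0, 0, 0⟩
  B1 := 0

def p7 : Pm where
  ec := ⟨5888802816, 0, 0, 0⟩
  bc := ⟨0, 0, 0, 0⟩
  nn := ⟨8796093022208, 0, 0, 0⟩
  tj := ⟨19791209299968, 0, 0, 0⟩
  ca := ⟨500363689984, 0, 0, 0⟩
  cb := ⟨430033600512, 0, 0, 0⟩
  cc := ⟨0, 0, 0, 0⟩
  ax := ⟨0, 0, 0, 0⟩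
  ay := ⟨0, 0, 0, 0⟩
  xa := ⟨0, 0, 0, 0⟩
  C2 := ⟨0, 0, 0, 0⟩
  wr := ⟨0, 572035956736, 0, 0⟩
  wi := ⟨5872294035456, 0, 0, 0⟩
  w1 := ⟨0, 53395033423872, 0, 0⟩
  h000 := ⟨272971904, 0, 0, 0⟩
  h001 := ⟨489062528, 0, 0, 0⟩
  h002 := ⟨2656412416, 0, 0, 0⟩
  h003 := ⟨0, 1306548416, 0, 0⟩
  h010 := ⟨0, 347497083008, 0, 0⟩
  h011 := ⟨676619660672, 0, 0, 0⟩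
  h012 := ⟨0, 0, 0, 0⟩
  h020 := ⟨8480923749376, 0, 0, 0⟩
  h021 := ⟨0, 0, 0, 0⟩
  h030 := ⟨0, 0, 0, 0⟩
  h100 := ⟨188632576, 0, 0, 0⟩
  h101 := ⟨0, 966097280, 0, 0⟩
  h102 := ⟨0, 513224704, 0, 0⟩
  h110 := ⟨0, 52829926912, 0, 0⟩
  h111 := ⟨0, 343015587136, 0, 0⟩
  h120 := ⟨0, 0, 0, 0⟩
  h200 := ⟨0, 233343552, 0, 0⟩
  h201 := ⟨194361024, 0, 0, 0⟩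
  h202 := ⟨155037952, 0, 0, 0⟩
  h210 := ⟨23454181312, 0, 0, 0⟩
  h211 := ⟨0, 0, 0, 0⟩
  h300 := ⟨33256640, 0, 0, 0⟩
  h301 := ⟨0, 22647360, 0, 0⟩
  h310 := ⟨0, 323837248, 0, 0⟩
  h400 := ⟨2781952, 0, 0, 0⟩
  h401 := ⟨0, 864128, 0, 0⟩
  h410 := ⟨0, 0, 0, 0⟩
  h500 := ⟨0, 1356160, 0, 0⟩
  h501 := ⟨0, 0, 0, 0⟩
  h600 := ⟨220928, 0, 0, 0⟩
  h700 := ⟨0, 0, 0, 0⟩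
  h800 := ⟨0, 0, 0, 0⟩
  m000 := ⟨1099319017472, 0, 0, 0⟩
  m001 := ⟨0, 225771520, 0, 0⟩
  m002 := ⟨919535616, 0, 0, 0⟩
  m010 := ⟨235225284608, 0, 0, 0⟩
  m100 := ⟨3224895488, 0, 0, 0⟩
  m101 := ⟨54788096, 0, 0, 0⟩
  m110 := ⟨507554824192, 0, 0, 0⟩
  m200 := ⟨0, 84017152, 0, 0⟩
  m300 := ⟨12058624, 0, 0, 0⟩
  a00 := ⟨60161589248, 0, 0, 0⟩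
  a01 := ⟨0, 66193522688, 0, 0⟩
  a02 := ⟨303088271360, 0, 0, 0⟩
  a03 := ⟨0, 724133019648, 0, 0⟩
  a10 := ⟨0, 11939536699392, 0, 0⟩
  a11 := ⟨5438929108992, 0, 0, 0⟩
  b00 := ⟨55179542528, 0, 0, 0⟩
  b01 := ⟨0, 66324135936, 0, 0⟩
  b02 := ⟨283971223552, 0, 0, 0⟩
  b03 := ⟨0, 651255087104, 0, 0⟩
  b10 := ⟨0, 12406591389696, 0, 0⟩
  b11 := ⟨7824809459712, 0, 0, 0⟩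
  t00 := ⟨635889057792, 0, 0, 0⟩
  t01 := ⟨0, 1356688326656, 0, 0⟩
  t02 := ⟨3910075023360, 0, 0, 0⟩
  t03 := ⟨0, 7664177709056, 0, 0⟩
  t10 := ⟨0, 117616387555328, 0, 0⟩
  t11 := ⟨153813014937600, 0, 0, 0⟩
  s00 := ⟨8408003837952, 0, 0, 0⟩
  s01 := ⟨0, 13683686178816, 0, 0⟩
  s02 := ⟨40438892462080, 0, 0, 0⟩
  s03 := ⟨0, 79336936964096, 0, 0⟩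
  s10 := ⟨0, 476002718384128, 0, 0⟩
  s11 := ⟨0, 291467945508864, 0, 0⟩
  g00 := ⟨19514988160, 0, 0, 0⟩
  g01 := ⟨498263168, 0, 0, 0⟩
  g10 := ⟨4987442569344, 0, 0, 0⟩
  g11 := ⟨0, 0, 0, 0⟩
  f00 := ⟨0, 23726705472, 0, 0⟩
  f01 := ⟨83390860096, 0, 0, 0⟩
  f10 := ⟨11549735263680, 0, 0, 0⟩
  f11 := ⟨0, 0, 0, 0⟩
  l000 := ⟨0, 0, 0, 0⟩
  l001 := ⟨0, 0, 0, 0⟩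
  l002 := ⟨0, 0, 0, 0⟩
  l010 := ⟨0, 0, 0, 0⟩
  l011 := ⟨0, 0, 0, 0⟩
  l020 := ⟨0, 0, 0, 0⟩
  l100 := ⟨0, 0, 0, 0⟩
  l101 := ⟨0, 0, 0, 0⟩
  l102 := ⟨0, 0, 0, 0⟩
  l110 := ⟨0, 0, 0, 0⟩
  l111 := ⟨0, 0, 0, 0⟩
  l120 := ⟨0, 0, 0, 0⟩
  l200 := ⟨0, 0, 0, 0⟩
  l201 := ⟨0, 0, 0, 0⟩
  l210 := ⟨0, 0, 0, 0⟩
  l300 := ⟨0, 0, 0, 0⟩
  l301 := ⟨0, 0, 0, 0⟩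
  l310 := ⟨0, 0, 0, 0⟩
  l400 := ⟨0, 0, 0, 0⟩
  l401 := ⟨0, 0, 0, 0⟩
  l410 := ⟨0, 0, 0, 0⟩
  l500 := ⟨0, 0, 0, 0⟩
  l501 := ⟨0, 0, 0, 0⟩
  l510 := ⟨0, 0, 0, 0⟩
  l600 := ⟨0, 0, 0, 0⟩
  l700 := ⟨0, 0, 0, 0⟩
  l800 := ⟨0, 0, 0, 0⟩
  l900 := ⟨0, 0, 0, 0⟩
  l1000 := ⟨0, 0, 0, 0⟩
  l1100 := ⟨0, 0, 0, 0⟩
  q00 := ⟨0, 0, 0, 0⟩
  q01 := ⟨0, 0, 0, 0⟩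
  q02 := ⟨0, 0, 0, 0⟩
  q03 := ⟨0, 0, 0, 0⟩
  q10 := ⟨0, 0, 0, 0⟩
  q11 := ⟨0, 0, 0, 0⟩
  q12 := ⟨0, 0, 0, 0⟩
  q20 := ⟨0, 0, 0, 0⟩
  q21 := ⟨0, 0, 0, 0⟩
  q30 := ⟨0, 0, 0, 0⟩
  n000 := ⟨0, 0, 0, 0⟩
  n001 := ⟨0, 0, 0, 0⟩
  n002 := ⟨0, 0, 0, 0⟩
  n010 := ⟨0, 0, 0, 0⟩
  n011 := ⟨0, 0, 0, 0⟩
  n020 := ⟨0, 0, 0, 0⟩
  n100 := ⟨0, 0, 0, 0⟩
  n101 := ⟨0, 0, 0, 0⟩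
  n110 := ⟨0, 0, 0, 0⟩
  n200 := ⟨0, 0, 0, 0⟩
  n201 := ⟨0, 0, 0, 0⟩
  n210 := ⟨0, 0, 0, 0⟩
  n300 := ⟨0, 0, 0, 0⟩
  n400 := ⟨0, 0, 0, 0⟩
  n500 := ⟨0, 0, 0, 0⟩
  e00 := ⟨0, 0, 0, 0⟩
  e01 := ⟨0, 0, 0, 0⟩
  e02 := ⟨0, 0, 0, 0⟩
  e03 := ⟨0, 0, 0, 0⟩
  e10 := ⟨0, 0, 0, 0⟩
  e11 := ⟨0, 0, 0, 0⟩
  B1 := 0

def p8 : Pm where
  ec := ⟨5888802816, 0, 0, 0⟩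
  bc := ⟨0, 0, 0, 0⟩
  nn := ⟨9895604649984, 0, 0, 0⟩
  tj := ⟨21990232555520, 0, 0, 0⟩
  ca := ⟨430033600512, 0, 0, 0⟩
  cb := ⟨360508817408, 0, 0, 0⟩
  cc := ⟨0, 0, 0, 0⟩
  ax := ⟨0, 0, 0, 0⟩
  ay := ⟨0, 0, 0, 0⟩
  xa := ⟨0, 0, 0, 0⟩
  C2 := ⟨0, 0, 0, 0⟩
  wr := ⟨0, 572035956736, 0, 0⟩
  wi := ⟨5872294035456, 0, 0, 0⟩
  w1 := ⟨0, 53395033423872, 0, 0⟩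
  h000 := ⟨272971904, 0, 0, 0⟩
  h001 := ⟨489062528, 0, 0, 0⟩
  h002 := ⟨2656412416, 0, 0, 0⟩
  h003 := ⟨0, 1306548416, 0, 0⟩
  h010 := ⟨0, 347497083008, 0, 0⟩
  h011 := ⟨676619660672, 0, 0, 0⟩
  h012 := ⟨0, 0, 0, 0⟩
  h020 := ⟨8480923749376, 0, 0, 0⟩
  h021 := ⟨0, 0, 0, 0⟩
  h030 := ⟨0, 0, 0, 0⟩
  h100 := ⟨188632576, 0, 0, 0⟩
  h101 := ⟨0, 966097280, 0, 0⟩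
  h102 := ⟨0, 513224704, 0, 0⟩
  h110 := ⟨0, 52829926912, 0, 0⟩
  h111 := ⟨0, 343015587136, 0, 0⟩
  h120 := ⟨0, 0, 0, 0⟩
  h200 := ⟨0, 233343552, 0, 0⟩
  h201 := ⟨194361024, 0, 0, 0⟩
  h202 := ⟨155037952, 0, 0, 0⟩
  h210 := ⟨23454181312, 0, 0, 0⟩
  h211 := ⟨0, 0, 0, 0⟩
  h300 := ⟨33256640, 0, 0, 0⟩
  h301 := ⟨0, 22647360, 0, 0⟩
  h310 := ⟨0, 323837248, 0, 0⟩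
  h400 := ⟨2781952, 0, 0, 0⟩
  h401 := ⟨0, 864128, 0, 0⟩
  h410 := ⟨0, 0, 0, 0⟩
  h500 := ⟨0, 1356160, 0, 0⟩
  h501 := ⟨0, 0, 0, 0⟩
  h600 := ⟨220928, 0, 0, 0⟩
  h700 := ⟨0, 0, 0, 0⟩
  h800 := ⟨0, 0, 0, 0⟩
  m000 := ⟨1099491901440, 0, 0, 0⟩
  m001 := ⟨0, 287113216, 0, 0⟩
  m002 := ⟨636420096, 0, 0, 0⟩
  m010 := ⟨196578181120, 0, 0, 0⟩
  m100 := ⟨3165257728, 0, 0, 0⟩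
  m101 := ⟨56164352, 0, 0, 0⟩
  m110 := ⟨510632722432, 0, 0, 0⟩
  m200 := ⟨0, 71106560, 0, 0⟩
  m300 := ⟨10420224, 0, 0, 0⟩
  a00 := ⟨55179542528, 0, 0, 0⟩
  a01 := ⟨0, 66324135936, 0, 0⟩
  a02 := ⟨283971223552, 0, 0, 0⟩
  a03 := ⟨0, 651255087104, 0, 0⟩
  a10 := ⟨0, 12406591389696, 0, 0⟩
  a11 := ⟨7824809459712, 0, 0, 0⟩
  b00 := ⟨50596085760, 0, 0, 0⟩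
  b01 := ⟨0, 65948680192, 0, 0⟩
  b02 := ⟨267186012160, 0, 0, 0⟩
  b03 := ⟨0, 587275632640, 0, 0⟩
  b10 := ⟨0, 12691624755200, 0, 0⟩
  b11 := ⟨9714921766912, 0, 0, 0⟩
  t00 := ⟨583393935360, 0, 0, 0⟩
  t01 := ⟨0, 1248063193088, 0, 0⟩
  t02 := ⟨3436132696064, 0, 0, 0⟩
  t03 := ⟨0, 6405428477952, 0, 0⟩
  t10 := ⟨0, 123272141209600, 0, 0⟩
  t11 := ⟨174433202601984, 0, 0, 0⟩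
  s00 := ⟨9043892895744, 0, 0, 0⟩
  s01 := ⟨0, 15040374505472, 0, 0⟩
  s02 := ⟨44348967485440, 0, 0, 0⟩
  s03 := ⟨0, 87001114673152, 0, 0⟩
  s10 := ⟨0, 593619105939456, 0, 0⟩
  s11 := ⟨0, 137654930571264, 0, 0⟩
  g00 := ⟨19514988160, 0, 0, 0⟩
  g01 := ⟨498263168, 0, 0, 0⟩
  g10 := ⟨4987442569344, 0, 0, 0⟩
  g11 := ⟨0, 0, 0, 0⟩
  f00 := ⟨0, 23726705472, 0, 0⟩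
  f01 := ⟨83390860096, 0, 0, 0⟩
  f10 := ⟨11549735263680, 0, 0, 0⟩
  f11 := ⟨0, 0, 0, 0⟩
  l000 := ⟨0, 0, 0, 0⟩
  l001 := ⟨0, 0, 0, 0⟩
  l002 := ⟨0, 0, 0, 0⟩
  l010 := ⟨0, 0, 0, 0⟩
  l011 := ⟨0, 0, 0, 0⟩
  l020 := ⟨0, 0, 0, 0⟩
  l100 := ⟨0, 0, 0, 0⟩
  l101 := ⟨0, 0, 0, 0⟩
  l102 := ⟨0, 0, 0, 0⟩
  l110 := ⟨0, 0, 0, 0⟩
  l111 := ⟨0, 0, 0, 0⟩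
  l120 := ⟨0, 0, 0, 0⟩
  l200 := ⟨0, 0, 0, 0⟩
  l201 := ⟨0, 0, 0, 0⟩
  l210 := ⟨0, 0, 0, 0⟩
  l300 := ⟨0, 0, 0, 0⟩
  l301 := ⟨0, 0, 0, 0⟩
  l310 := ⟨0, 0, 0, 0⟩
  l400 := ⟨0, 0, 0, 0⟩
  l401 := ⟨0, 0, 0, 0⟩
  l410 := ⟨0, 0, 0, 0⟩
  l500 := ⟨0, 0, 0, 0⟩
  l501 := ⟨0, 0, 0, 0⟩
  l510 := ⟨0, 0, 0, 0⟩
  l600 := ⟨0, 0, 0, 0⟩
  l700 := ⟨0, 0, 0, 0⟩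
  l800 := ⟨0, 0, 0, 0⟩
  l900 := ⟨0, 0, 0, 0⟩
  l1000 := ⟨0, 0, 0, 0⟩
  l1100 := ⟨0, 0, 0, 0⟩
  q00 := ⟨0, 0, 0, 0⟩
  q01 := ⟨0, 0, 0, 0⟩
  q02 := ⟨0, 0, 0, 0⟩
  q03 := ⟨0, 0, 0, 0⟩
  q10 := ⟨0, 0, 0, 0⟩
  q11 := ⟨0, 0, 0, 0⟩
  q12 := ⟨0, 0, 0, 0⟩
  q20 := ⟨0, 0, 0, 0⟩
  q21 := ⟨0, 0, 0, 0⟩
  q30 := ⟨0, 0, 0, 0⟩
  n000 := ⟨0, 0, 0, 0⟩
  n001 := ⟨0, 0, 0, 0⟩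
  n002 := ⟨0, 0, 0, 0⟩
  n010 := ⟨0, 0, 0, 0⟩
  n011 := ⟨0, 0, 0, 0⟩
  n020 := ⟨0, 0, 0, 0⟩
  n100 := ⟨0, 0, 0, 0⟩
  n101 := ⟨0, 0, 0, 0⟩
  n110 := ⟨0, 0, 0, 0⟩
  n200 := ⟨0, 0, 0, 0⟩
  n201 := ⟨0, 0, 0, 0⟩
  n210 := ⟨0, 0, 0, 0⟩
  n300 := ⟨0, 0, 0, 0⟩
  n400 := ⟨0, 0, 0, 0⟩
  n500 := ⟨0, 0, 0, 0⟩
  e00 := ⟨0, 0, 0, 0⟩
  e01 := ⟨0, 0, 0, 0⟩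
  e02 := ⟨0, 0, 0, 0⟩
  e03 := ⟨0, 0, 0, 0⟩
  e10 := ⟨0, 0, 0, 0⟩
  e11 := ⟨0, 0, 0, 0⟩
  B1 := 0

def p9 : Pm where
  ec := ⟨5888802816, 0, 0, 0⟩
  bc := ⟨0, 0, 0, 0⟩
  nn := ⟨10995116277760, 0, 0, 0⟩
  tj := ⟨24189255811072, 0, 0, 0⟩
  ca := ⟨360508817408, 0, 0, 0⟩
  cb := ⟨290178727936, 0, 0, 0⟩
  cc := ⟨0, 0, 0, 0⟩
  ax := ⟨0, 0, 0, 0⟩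
  ay := ⟨0, 0, 0, 0⟩
  xa := ⟨0, 0, 0, 0⟩
  C2 := ⟨0, 0, 0, 0⟩
  wr := ⟨0, 572035956736, 0, 0⟩
  wi := ⟨5872294035456, 0, 0, 0⟩
  w1 := ⟨0, 53395033423872, 0, 0⟩
  h000 := ⟨272971904, 0, 0, 0⟩
  h001 := ⟨489062528, 0, 0, 0⟩
  h002 := ⟨2656412416, 0, 0, 0⟩
  h003 := ⟨0, 1306548416, 0, 0⟩
  h010 := ⟨0, 347497083008, 0, 0⟩
  h011 := ⟨676619660672, 0, 0, 0⟩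
  h012 := ⟨0, 0, 0, 0⟩
  h020 := ⟨8480923749376, 0, 0, 0⟩
  h021 := ⟨0, 0, 0, 0⟩
  h030 := ⟨0, 0, 0, 0⟩
  h100 := ⟨188632576, 0, 0, 0⟩
  h101 := ⟨0, 966097280, 0, 0⟩
  h102 := ⟨0, 513224704, 0, 0⟩
  h110 := ⟨0, 52829926912, 0, 0⟩
  h111 := ⟨0, 343015587136, 0, 0⟩
  h120 := ⟨0, 0, 0, 0⟩
  h200 := ⟨0, 233343552, 0, 0⟩
  h201 := ⟨194361024, 0, 0, 0⟩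
  h202 := ⟨155037952, 0, 0, 0⟩
  h210 := ⟨23454181312, 0, 0, 0⟩
  h211 := ⟨0, 0, 0, 0⟩
  h300 := ⟨33256640, 0, 0, 0⟩
  h301 := ⟨0, 22647360, 0, 0⟩
  h310 := ⟨0, 323837248, 0, 0⟩
  h400 := ⟨2781952, 0, 0, 0⟩
  h401 := ⟨0, 864128, 0, 0⟩
  h410 := ⟨0, 0, 0, 0⟩
  h500 := ⟨0, 1356160, 0, 0⟩
  h501 := ⟨0, 0, 0, 0⟩
  h600 := ⟨220928, 0, 0, 0⟩
  h700 := ⟨0, 0, 0, 0⟩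
  h800 := ⟨0, 0, 0, 0⟩
  m000 := ⟨1099646828544, 0, 0, 0⟩
  m001 := ⟨0, 390266880, 0, 0⟩
  m002 := ⟨543031296, 0, 0, 0⟩
  m010 := ⟨159519080448, 0, 0, 0⟩
  m100 := ⟨3108896768, 0, 0, 0⟩
  m101 := ⟨53870592, 0, 0, 0⟩
  m110 := ⟨515364028416, 0, 0, 0⟩
  m200 := ⟨0, 58458112, 0, 0⟩
  m300 := ⟨8781824, 0, 0, 0⟩
  a00 := ⟨50596085760, 0, 0, 0⟩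
  a01 := ⟨0, 65948680192, 0, 0⟩
  a02 := ⟨267186012160, 0, 0, 0⟩
  a03 := ⟨0, 587275632640, 0, 0⟩
  a10 := ⟨0, 12691624755200, 0, 0⟩
  a11 := ⟨9714921766912, 0, 0, 0⟩
  b00 := ⟨46378123264, 0, 0, 0⟩
  b01 := ⟨0, 65135575040, 0, 0⟩
  b02 := ⟨252440805376, 0, 0, 0⟩
  b03 := ⟨0, 531418513408, 0, 0⟩
  b10 := ⟨0, 12822027239424, 0, 0⟩
  b11 := ⟨11201328316416, 0, 0, 0⟩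
  t00 := ⟨535265673216, 0, 0, 0⟩
  t01 := ⟨0, 1164606767104, 0, 0⟩
  t02 := ⟨3156914405376, 0, 0, 0⟩
  t03 := ⟨0, 5631111987200, 0, 0⟩
  t10 := ⟨0, 126344347254784, 0, 0⟩
  t11 := ⟨184987994095616, 0, 0, 0⟩
  s00 := ⟨9627286831104, 0, 0, 0⟩
  s01 := ⟨0, 16288437698560, 0, 0⟩
  s02 := ⟨47785100181504, 0, 0, 0⟩
  s03 := ⟨0, 93406543151104, 0, 0⟩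
  s10 := ⟨0, 716891247149056, 0, 0⟩
  s11 := ⟨36778272030720, 0, 0, 0⟩
  g00 := ⟨19514988160, 0, 0, 0⟩
  g01 := ⟨498263168, 0, 0, 0⟩
  g10 := ⟨4987442569344, 0, 0, 0⟩
  g11 := ⟨0, 0, 0, 0⟩
  f00 := ⟨0, 23726705472, 0, 0⟩
  f01 := ⟨83390860096, 0, 0, 0⟩
  f10 := ⟨11549735263680, 0, 0, 0⟩
  f11 := ⟨0, 0, 0, 0⟩
  l000 := ⟨0, 0, 0, 0⟩
  l001 := ⟨0, 0, 0, 0⟩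
  l002 := ⟨0, 0, 0, 0⟩
  l010 := ⟨0, 0, 0, 0⟩
  l011 := ⟨0, 0, 0, 0⟩
  l020 := ⟨0, 0, 0, 0⟩
  l100 := ⟨0, 0, 0, 0⟩
  l101 := ⟨0, 0, 0, 0⟩
  l102 := ⟨0, 0, 0, 0⟩
  l110 := ⟨0, 0, 0, 0⟩
  l111 := ⟨0, 0, 0, 0⟩
  l120 := ⟨0, 0, 0, 0⟩
  l200 := ⟨0, 0, 0, 0⟩
  l201 := ⟨0, 0, 0, 0⟩
  l210 := ⟨0, 0, 0, 0⟩
  l300 := ⟨0, 0, 0, 0⟩
  l301 := ⟨0, 0, 0, 0⟩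
  l310 := ⟨0, 0, 0, 0⟩
  l400 := ⟨0, 0, 0, 0⟩
  l401 := ⟨0, 0, 0, 0⟩
  l410 := ⟨0, 0, 0, 0⟩
  l500 := ⟨0, 0, 0, 0⟩
  l501 := ⟨0, 0, 0, 0⟩
  l510 := ⟨0, 0, 0, 0⟩
  l600 := ⟨0, 0, 0, 0⟩
  l700 := ⟨0, 0, 0, 0⟩
  l800 := ⟨0, 0, 0, 0⟩
  l900 := ⟨0, 0, 0, 0⟩
  l1000 := ⟨0, 0, 0, 0⟩
  l1100 := ⟨0, 0, 0, 0⟩
  q00 := ⟨0, 0, 0, 0⟩
  q01 := ⟨0, 0, 0, 0⟩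
  q02 := ⟨0, 0, 0, 0⟩
  q03 := ⟨0, 0, 0, 0⟩
  q10 := ⟨0, 0, 0, 0⟩
  q11 := ⟨0, 0, 0, 0⟩
  q12 := ⟨0, 0, 0, 0⟩
  q20 := ⟨0, 0, 0, 0⟩
  q21 := ⟨0, 0, 0, 0⟩
  q30 := ⟨0, 0, 0, 0⟩
  n000 := ⟨0, 0, 0, 0⟩
  n001 := ⟨0, 0, 0, 0⟩
  n002 := ⟨0, 0, 0, 0⟩
  n010 := ⟨0, 0, 0, 0⟩
  n011 := ⟨0, 0, 0, 0⟩
  n020 := ⟨0, 0, 0, 0⟩
  n100 := ⟨0, 0, 0, 0⟩
  n101 := ⟨0, 0, 0, 0⟩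
  n110 := ⟨0, 0, 0, 0⟩
  n200 := ⟨0, 0, 0, 0⟩
  n201 := ⟨0, 0, 0, 0⟩
  n210 := ⟨0, 0, 0, 0⟩
  n300 := ⟨0, 0, 0, 0⟩
  n400 := ⟨0, 0, 0, 0⟩
  n500 := ⟨0, 0, 0, 0⟩
  e00 := ⟨0, 0, 0, 0⟩
  e01 := ⟨0, 0, 0, 0⟩
  e02 := ⟨0, 0, 0, 0⟩
  e03 := ⟨0, 0, 0, 0⟩
  e10 := ⟨0, 0, 0, 0⟩
  e11 := ⟨0, 0, 0, 0⟩
  B1 := 0

def p10 : Pm where
  ec := ⟨5888802816, 0, 0, 0⟩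
  bc := ⟨0, 0, 0, 0⟩
  nn := ⟨12094627905536, 0, 0, 0⟩
  tj := ⟨26388279066624, 0, 0, 0⟩
  ca := ⟨290178727936, 0, 0, 0⟩
  cb := ⟨220922380288, 0, 0, 0⟩
  cc := ⟨0, 0, 0, 0⟩
  ax := ⟨0, 0, 0, 0⟩
  ay := ⟨0, 0, 0, 0⟩
  xa := ⟨0, 0, 0, 0⟩
  C2 := ⟨0, 0, 0, 0⟩
  wr := ⟨0, 572035956736, 0, 0⟩
  wi := ⟨5872294035456, 0, 0, 0⟩
  w1 := ⟨0, 53395033423872, 0, 0⟩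
  h000 := ⟨272971904, 0, 0, 0⟩
  h001 := ⟨489062528, 0, 0, 0⟩
  h002 := ⟨2656412416, 0, 0, 0⟩
  h003 := ⟨0, 1306548416, 0, 0⟩
  h010 := ⟨0, 347497083008, 0, 0⟩
  h011 := ⟨676619660672, 0, 0, 0⟩
  h012 := ⟨0, 0, 0, 0⟩
  h020 := ⟨8480923749376, 0, 0, 0⟩
  h021 := ⟨0, 0, 0, 0⟩
  h030 := ⟨0, 0, 0, 0⟩
  h100 := ⟨188632576, 0, 0, 0⟩
  h101 := ⟨0, 966097280, 0, 0⟩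
  h102 := ⟨0, 513224704, 0, 0⟩
  h110 := ⟨0, 52829926912, 0, 0⟩
  h111 := ⟨0, 343015587136, 0, 0⟩
  h120 := ⟨0, 0, 0, 0⟩
  h200 := ⟨0, 233343552, 0, 0⟩
  h201 := ⟨194361024, 0, 0, 0⟩
  h202 := ⟨155037952, 0, 0, 0⟩
  h210 := ⟨23454181312, 0, 0, 0⟩
  h211 := ⟨0, 0, 0, 0⟩
  h300 := ⟨33256640, 0, 0, 0⟩
  h301 := ⟨0, 22647360, 0, 0⟩
  h310 := ⟨0, 323837248, 0, 0⟩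
  h400 := ⟨2781952, 0, 0, 0⟩
  h401 := ⟨0, 864128, 0, 0⟩
  h410 := ⟨0, 0, 0, 0⟩
  h500 := ⟨0, 1356160, 0, 0⟩
  h501 := ⟨0, 0, 0, 0⟩
  h600 := ⟨220928, 0, 0, 0⟩
  h700 := ⟨0, 0, 0, 0⟩
  h800 := ⟨0, 0, 0, 0⟩
  m000 := ⟨1099767349248, 0, 0, 0⟩
  m001 := ⟨0, 439943168, 0, 0⟩
  m002 := ⟨557645824, 0, 0, 0⟩
  m010 := ⟨137165275136, 0, 0, 0⟩
  m100 := ⟨3058565120, 0, 0, 0⟩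
  m101 := ⟨45350912, 0, 0, 0⟩
  m110 := ⟨517142282240, 0, 0, 0⟩
  m200 := ⟨0, 47054848, 0, 0⟩
  m300 := ⟨7471104, 0, 0, 0⟩
  a00 := ⟨46378123264, 0, 0, 0⟩
  a01 := ⟨0, 65135575040, 0, 0⟩
  a02 := ⟨252440805376, 0, 0, 0⟩
  a03 := ⟨0, 531418513408, 0, 0⟩
  a10 := ⟨0, 12822027239424, 0, 0⟩
  a11 := ⟨11201328316416, 0, 0, 0⟩
  b00 := ⟨42495836160, 0, 0, 0⟩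
  b01 := ⟨0, 63943868416, 0, 0⟩
  b02 := ⟨239278555136, 0, 0, 0⟩
  b03 := ⟨0, 481976451072, 0, 0⟩
  b10 := ⟨0, 12823113629696, 0, 0⟩
  b11 := ⟨12380124610560, 0, 0, 0⟩
  t00 := ⟨490772889600, 0, 0, 0⟩
  t01 := ⟨0, 1102982217728, 0, 0⟩
  t02 := ⟨3096552341504, 0, 0, 0⟩
  t03 := ⟨0, 5452633866240, 0, 0⟩
  t10 := ⟨0, 128406958768128, 0, 0⟩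
  t11 := ⟨197802461167616, 0, 0, 0⟩
  s00 := ⟨10162552504320, 0, 0, 0⟩
  s01 := ⟨0, 17453044465664, 0, 0⟩
  s02 := ⟨50942014586880, 0, 0, 0⟩
  s03 := ⟨0, 99037655138304, 0, 0⟩
  s10 := ⟨0, 843235594403840, 0, 0⟩
  s11 := ⟨221766266126336, 0, 0, 0⟩
  g00 := ⟨19514988160, 0, 0, 0⟩
  g01 := ⟨498263168, 0, 0, 0⟩
  g10 := ⟨4987442569344, 0, 0, 0⟩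
  g11 := ⟨0, 0, 0, 0⟩
  f00 := ⟨0, 23726705472, 0, 0⟩
  f01 := ⟨83390860096, 0, 0, 0⟩
  f10 := ⟨11549735263680, 0, 0, 0⟩
  f11 := ⟨0, 0, 0, 0⟩
  l000 := ⟨0, 0, 0, 0⟩
  l001 := ⟨0, 0, 0, 0⟩
  l002 := ⟨0, 0, 0, 0⟩
  l010 := ⟨0, 0, 0, 0⟩
  l011 := ⟨0, 0, 0, 0⟩
  l020 := ⟨0, 0, 0, 0⟩
  l100 := ⟨0, 0, 0, 0⟩
  l101 := ⟨0, 0, 0, 0⟩
  l102 := ⟨0, 0, 0, 0⟩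
  l110 := ⟨0, 0, 0, 0⟩
  l111 := ⟨0, 0, 0, 0⟩
  l120 := ⟨0, 0, 0, 0⟩
  l200 := ⟨0, 0, 0, 0⟩
  l201 := ⟨0, 0, 0, 0⟩
  l210 := ⟨0, 0, 0, 0⟩
  l300 := ⟨0, 0, 0, 0⟩
  l301 := ⟨0, 0, 0, 0⟩
  l310 := ⟨0, 0, 0, 0⟩
  l400 := ⟨0, 0, 0, 0⟩
  l401 := ⟨0, 0, 0, 0⟩
  l410 := ⟨0, 0, 0, 0⟩
  l500 := ⟨0, 0, 0, 0⟩
  l501 := ⟨0, 0, 0, 0⟩
  l510 := ⟨0, 0, 0, 0⟩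
  l600 := ⟨0, 0, 0, 0⟩
  l700 := ⟨0, 0, 0, 0⟩
  l800 := ⟨0, 0, 0, 0⟩
  l900 := ⟨0, 0, 0, 0⟩
  l1000 := ⟨0, 0, 0, 0⟩
  l1100 := ⟨0, 0, 0, 0⟩
  q00 := ⟨0, 0, 0, 0⟩
  q01 := ⟨0, 0, 0, 0⟩
  q02 := ⟨0, 0, 0, 0⟩
  q03 := ⟨0, 0, 0, 0⟩
  q10 := ⟨0, 0, 0, 0⟩
  q11 := ⟨0, 0, 0, 0⟩
  q12 := ⟨0, 0, 0, 0⟩
  q20 := ⟨0, 0, 0, 0⟩
  q21 := ⟨0, 0, 0, 0⟩
  q30 := ⟨0, 0, 0, 0⟩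
  n000 := ⟨0, 0, 0, 0⟩
  n001 := ⟨0, 0, 0, 0⟩
  n002 := ⟨0, 0, 0, 0⟩
  n010 := ⟨0, 0, 0, 0⟩
  n011 := ⟨0, 0, 0, 0⟩
  n020 := ⟨0, 0, 0, 0⟩
  n100 := ⟨0, 0, 0, 0⟩
  n101 := ⟨0, 0, 0, 0⟩
  n110 := ⟨0, 0, 0, 0⟩
  n200 := ⟨0, 0, 0, 0⟩
  n201 := ⟨0, 0, 0, 0⟩
  n210 := ⟨0, 0, 0, 0⟩
  n300 := ⟨0, 0, 0, 0⟩
  n400 := ⟨0, 0, 0, 0⟩
  n500 := ⟨0, 0, 0, 0⟩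
  e00 := ⟨0, 0, 0, 0⟩
  e01 := ⟨0, 0, 0, 0⟩
  e02 := ⟨0, 0, 0, 0⟩
  e03 := ⟨0, 0, 0, 0⟩
  e10 := ⟨0, 0, 0, 0⟩
  e11 := ⟨0, 0, 0, 0⟩
  B1 := 0

def p11 : Pm where
  ec := ⟨5888802816, 0, 0, 0⟩
  bc := ⟨0, 0, 0, 0⟩
  nn := ⟨13194139533312, 0, 0, 0⟩
  tj := ⟨28587302322176, 0, 0, 0⟩
  ca := ⟨220922380288, 0, 0, 0⟩
  cb := ⟨150592290816, 0, 0, 0⟩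
  cc := ⟨0, 0, 0, 0⟩
  ax := ⟨0, 0, 0, 0⟩
  ay := ⟨0, 0, 0, 0⟩
  xa := ⟨0, 0, 0, 0⟩
  C2 := ⟨0, 0, 0, 0⟩
  wr := ⟨0, 572035956736, 0, 0⟩
  wi := ⟨5872294035456, 0, 0, 0⟩
  w1 := ⟨0, 53395033423872, 0, 0⟩
  h000 := ⟨272971904, 0, 0, 0⟩
  h001 := ⟨489062528, 0, 0, 0⟩
  h002 := ⟨2656412416, 0, 0, 0⟩
  h003 := ⟨0, 1306548416, 0, 0⟩
  h010 := ⟨0, 347497083008, 0, 0⟩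
  h011 := ⟨676619660672, 0, 0, 0⟩
  h012 := ⟨0, 0, 0, 0⟩
  h020 := ⟨8480923749376, 0, 0, 0⟩
  h021 := ⟨0, 0, 0, 0⟩
  h030 := ⟨0, 0, 0, 0⟩
  h100 := ⟨188632576, 0, 0, 0⟩
  h101 := ⟨0, 966097280, 0, 0⟩
  h102 := ⟨0, 513224704, 0, 0⟩
  h110 := ⟨0, 52829926912, 0, 0⟩
  h111 := ⟨0, 343015587136, 0, 0⟩
  h120 := ⟨0, 0, 0, 0⟩
  h200 := ⟨0, 233343552, 0, 0⟩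
  h201 := ⟨194361024, 0, 0, 0⟩
  h202 := ⟨155037952, 0, 0, 0⟩
  h210 := ⟨23454181312, 0, 0, 0⟩
  h211 := ⟨0, 0, 0, 0⟩
  h300 := ⟨33256640, 0, 0, 0⟩
  h301 := ⟨0, 22647360, 0, 0⟩
  h310 := ⟨0, 323837248, 0, 0⟩
  h400 := ⟨2781952, 0, 0, 0⟩
  h401 := ⟨0, 864128, 0, 0⟩
  h410 := ⟨0, 0, 0, 0⟩
  h500 := ⟨0, 1356160, 0, 0⟩
  h501 := ⟨0, 0, 0, 0⟩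
  h600 := ⟨220928, 0, 0, 0⟩
  h700 := ⟨0, 0, 0, 0⟩
  h800 := ⟨0, 0, 0, 0⟩
  m000 := ⟨1099871551488, 0, 0, 0⟩
  m001 := ⟨0, 446234624, 0, 0⟩
  m002 := ⟨483655680, 0, 0, 0⟩
  m010 := ⟨125939744768, 0, 0, 0⟩
  m100 := ⟨3011313664, 0, 0, 0⟩
  m101 := ⟨42467328, 0, 0, 0⟩
  m110 := ⟨517897256960, 0, 0, 0⟩
  m200 := ⟨0, 36765696, 0, 0⟩
  m300 := ⟨6291456, 0, 0, 0⟩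
  a00 := ⟨42495836160, 0, 0, 0⟩
  a01 := ⟨0, 63943868416, 0, 0⟩
  a02 := ⟨239278555136, 0, 0, 0⟩
  a03 := ⟨0, 481976451072, 0, 0⟩
  a10 := ⟨0, 12823113629696, 0, 0⟩
  a11 := ⟨12380124610560, 0, 0, 0⟩
  b00 := ⟨38922289152, 0, 0, 0⟩
  b01 := ⟨0, 62429265920, 0, 0⟩
  b02 := ⟨227264102400, 0, 0, 0⟩
  b03 := ⟨0, 437380644864, 0, 0⟩
  b10 := ⟨0, 12716707938304, 0, 0⟩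
  b11 := ⟨13327134359552, 0, 0, 0⟩
  t00 := ⟨449726054400, 0, 0, 0⟩
  t01 := ⟨0, 1044054736896, 0, 0⟩
  t02 := ⟨3034320142336, 0, 0, 0⟩
  t03 := ⟨0, 5297313611776, 0, 0⟩
  t10 := ⟨0, 129282258042880, 0, 0⟩
  t11 := ⟨205711689252864, 0, 0, 0⟩
  s00 := ⟨10653325393920, 0, 0, 0⟩
  s01 := ⟨0, 18556026683392, 0, 0⟩
  s02 := ⟨54038566928384, 0, 0, 0⟩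
  s03 := ⟨0, 104490289004544, 0, 0⟩
  s10 := ⟨0, 971642553171968, 0, 0⟩
  s11 := ⟨419568727293952, 0, 0, 0⟩
  g00 := ⟨19514988160, 0, 0, 0⟩
  g01 := ⟨498263168, 0, 0, 0⟩
  g10 := ⟨4987442569344, 0, 0, 0⟩
  g11 := ⟨0, 0, 0, 0⟩
  f00 := ⟨0, 23726705472, 0, 0⟩
  f01 := ⟨83390860096, 0, 0, 0⟩
  f10 := ⟨11549735263680, 0, 0, 0⟩
  f11 := ⟨0, 0, 0, 0⟩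
  l000 := ⟨0, 0, 0, 0⟩
  l001 := ⟨0, 0, 0, 0⟩
  l002 := ⟨0, 0, 0, 0⟩
  l010 := ⟨0, 0, 0, 0⟩
  l011 := ⟨0, 0, 0, 0⟩
  l020 := ⟨0, 0, 0, 0⟩
  l100 := ⟨0, 0, 0, 0⟩
  l101 := ⟨0, 0, 0, 0⟩
  l102 := ⟨0, 0, 0, 0⟩
  l110 := ⟨0, 0, 0, 0⟩
  l111 := ⟨0, 0, 0, 0⟩
  l120 := ⟨0, 0, 0, 0⟩
  l200 := ⟨0, 0, 0, 0⟩
  l201 := ⟨0, 0, 0, 0⟩
  l210 := ⟨0, 0, 0, 0⟩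
  l300 := ⟨0, 0, 0, 0⟩
  l301 := ⟨0, 0, 0, 0⟩
  l310 := ⟨0, 0, 0, 0⟩
  l400 := ⟨0, 0, 0, 0⟩
  l401 := ⟨0, 0, 0, 0⟩
  l410 := ⟨0, 0, 0, 0⟩
  l500 := ⟨0, 0, 0, 0⟩
  l501 := ⟨0, 0, 0, 0⟩
  l510 := ⟨0, 0, 0, 0⟩
  l600 := ⟨0, 0, 0, 0⟩
  l700 := ⟨0, 0, 0, 0⟩
  l800 := ⟨0, 0, 0, 0⟩
  l900 := ⟨0, 0, 0, 0⟩
  l1000 := ⟨0, 0, 0, 0⟩
  l1100 := ⟨0, 0, 0, 0⟩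
  q00 := ⟨0, 0, 0, 0⟩
  q01 := ⟨0, 0, 0, 0⟩
  q02 := ⟨0, 0, 0, 0⟩
  q03 := ⟨0, 0, 0, 0⟩
  q10 := ⟨0, 0, 0, 0⟩
  q11 := ⟨0, 0, 0, 0⟩
  q12 := ⟨0, 0, 0, 0⟩
  q20 := ⟨0, 0, 0, 0⟩
  q21 := ⟨0, 0, 0, 0⟩
  q30 := ⟨0, 0, 0, 0⟩
  n000 := ⟨0, 0, 0, 0⟩
  n001 := ⟨0, 0, 0, 0⟩
  n002 := ⟨0, 0, 0, 0⟩
  n010 := ⟨0, 0, 0, 0⟩
  n011 := ⟨0, 0, 0, 0⟩
  n020 := ⟨0, 0, 0, 0⟩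
  n100 := ⟨0, 0, 0, 0⟩
  n101 := ⟨0, 0, 0, 0⟩
  n110 := ⟨0, 0, 0, 0⟩
  n200 := ⟨0, 0, 0, 0⟩
  n201 := ⟨0, 0, 0, 0⟩
  n210 := ⟨0, 0, 0, 0⟩
  n300 := ⟨0, 0, 0, 0⟩
  n400 := ⟨0, 0, 0, 0⟩
  n500 := ⟨0, 0, 0, 0⟩
  e00 := ⟨0, 0, 0, 0⟩
  e01 := ⟨0, 0, 0, 0⟩
  e02 := ⟨0, 0, 0, 0⟩
  e03 := ⟨0, 0, 0, 0⟩
  e10 := ⟨0, 0, 0, 0⟩
  e11 := ⟨0, 0, 0, 0⟩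
  B1 := 0

def p12 : Pm where
  ec := ⟨5888802816, 0, 0, 0⟩
  bc := ⟨0, 0, 0, 0⟩
  nn := ⟨14293651161088, 0, 0, 0⟩
  tj := ⟨30786325577728, 0, 0, 0⟩
  ca := ⟨150592290816, 0, 0, 0⟩
  cb := ⟨80799072256, 0, 0, 0⟩
  cc := ⟨0, 0, 0, 0⟩
  ax := ⟨0, 0, 0, 0⟩
  ay := ⟨0, 0, 0, 0⟩
  xa := ⟨0, 0, 0, 0⟩
  C2 := ⟨0, 0, 0, 0⟩
  wr := ⟨0, 572035956736, 0, 0⟩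
  wi := ⟨5872294035456, 0, 0, 0⟩
  w1 := ⟨0, 53395033423872, 0, 0⟩
  h000 := ⟨272971904, 0, 0, 0⟩
  h001 := ⟨489062528, 0, 0, 0⟩
  h002 := ⟨2656412416, 0, 0, 0⟩
  h003 := ⟨0, 1306548416, 0, 0⟩
  h010 := ⟨0, 347497083008, 0, 0⟩
  h011 := ⟨676619660672, 0, 0, 0⟩
  h012 := ⟨0, 0, 0, 0⟩
  h020 := ⟨8480923749376, 0, 0, 0⟩
  h021 := ⟨0, 0, 0, 0⟩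
  h030 := ⟨0, 0, 0, 0⟩
  h100 := ⟨188632576, 0, 0, 0⟩
  h101 := ⟨0, 966097280, 0, 0⟩
  h102 := ⟨0, 513224704, 0, 0⟩
  h110 := ⟨0, 52829926912, 0, 0⟩
  h111 := ⟨0, 343015587136, 0, 0⟩
  h120 := ⟨0, 0, 0, 0⟩
  h200 := ⟨0, 233343552, 0, 0⟩
  h201 := ⟨194361024, 0, 0, 0⟩
  h202 := ⟨155037952, 0, 0, 0⟩
  h210 := ⟨23454181312, 0, 0, 0⟩
  h211 := ⟨0, 0, 0, 0⟩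
  h300 := ⟨33256640, 0, 0, 0⟩
  h301 := ⟨0, 22647360, 0, 0⟩
  h310 := ⟨0, 323837248, 0, 0⟩
  h400 := ⟨2781952, 0, 0, 0⟩
  h401 := ⟨0, 864128, 0, 0⟩
  h410 := ⟨0, 0, 0, 0⟩
  h500 := ⟨0, 1356160, 0, 0⟩
  h501 := ⟨0, 0, 0, 0⟩
  h600 := ⟨220928, 0, 0, 0⟩
  h700 := ⟨0, 0, 0, 0⟩
  h800 := ⟨0, 0, 0, 0⟩
  m000 := ⟨1099959697408, 0, 0, 0⟩
  m001 := ⟨0, 424083456, 0, 0⟩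
  m002 := ⟨338493440, 0, 0, 0⟩
  m010 := ⟨100269817856, 0, 0, 0⟩
  m100 := ⟨2968715264, 0, 0, 0⟩
  m101 := ⟨44761088, 0, 0, 0⟩
  m110 := ⟨524947423232, 0, 0, 0⟩
  m200 := ⟨0, 27721728, 0, 0⟩
  m300 := ⟨5308416, 0, 0, 0⟩
  a00 := ⟨38922289152, 0, 0, 0⟩
  a01 := ⟨0, 62429265920, 0, 0⟩
  a02 := ⟨227264102400, 0, 0, 0⟩
  a03 := ⟨0, 437380644864, 0, 0⟩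
  a10 := ⟨0, 12716707938304, 0, 0⟩
  a11 := ⟨13327134359552, 0, 0, 0⟩
  b00 := ⟨35632513024, 0, 0, 0⟩
  b01 := ⟨0, 60640002048, 0, 0⟩
  b02 := ⟨216053121024, 0, 0, 0⟩
  b03 := ⟨0, 396490047488, 0, 0⟩
  b10 := ⟨0, 12520334884864, 0, 0⟩
  b11 := ⟨14066403115008, 0, 0, 0⟩
  t00 := ⟨412024045568, 0, 0, 0⟩
  t01 := ⟨0, 983261315072, 0, 0⟩
  t02 := ⟨2932060192768, 0, 0, 0⟩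
  t03 := ⟨0, 5081439338496, 0, 0⟩
  t10 := ⟨0, 128714285318144, 0, 0⟩
  t11 := ⟨211806813224960, 0, 0, 0⟩
  s00 := ⟨11103051448320, 0, 0, 0⟩
  s01 := ⟨0, 19600081420288, 0, 0⟩
  s02 := ⟨57072887070720, 0, 0, 0⟩
  s03 := ⟨0, 109787602616320, 0, 0⟩
  s10 := ⟨0, 1100924811214848, 0, 0⟩
  s11 := ⟨625280416546816, 0, 0, 0⟩
  g00 := ⟨19514988160, 0, 0, 0⟩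
  g01 := ⟨498263168, 0, 0, 0⟩
  g10 := ⟨4987442569344, 0, 0, 0⟩
  g11 := ⟨0, 0, 0, 0⟩
  f00 := ⟨0, 23726705472, 0, 0⟩
  f01 := ⟨83390860096, 0, 0, 0⟩
  f10 := ⟨11549735263680, 0, 0, 0⟩
  f11 := ⟨0, 0, 0, 0⟩
  l000 := ⟨0, 0, 0, 0⟩
  l001 := ⟨0, 0, 0, 0⟩
  l002 := ⟨0, 0, 0, 0⟩
  l010 := ⟨0, 0, 0, 0⟩
  l011 := ⟨0, 0, 0, 0⟩
  l020 := ⟨0, 0, 0, 0⟩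
  l100 := ⟨0, 0, 0, 0⟩
  l101 := ⟨0, 0, 0, 0⟩
  l102 := ⟨0, 0, 0, 0⟩
  l110 := ⟨0, 0, 0, 0⟩
  l111 := ⟨0, 0, 0, 0⟩
  l120 := ⟨0, 0, 0, 0⟩
  l200 := ⟨0, 0, 0, 0⟩
  l201 := ⟨0, 0, 0, 0⟩
  l210 := ⟨0, 0, 0, 0⟩
  l300 := ⟨0, 0, 0, 0⟩
  l301 := ⟨0, 0, 0, 0⟩
  l310 := ⟨0, 0, 0, 0⟩
  l400 := ⟨0, 0, 0, 0⟩
  l401 := ⟨0, 0, 0, 0⟩
  l410 := ⟨0, 0, 0, 0⟩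
  l500 := ⟨0, 0, 0, 0⟩
  l501 := ⟨0, 0, 0, 0⟩
  l510 := ⟨0, 0, 0, 0⟩
  l600 := ⟨0, 0, 0, 0⟩
  l700 := ⟨0, 0, 0, 0⟩
  l800 := ⟨0, 0, 0, 0⟩
  l900 := ⟨0, 0, 0, 0⟩
  l1000 := ⟨0, 0, 0, 0⟩
  l1100 := ⟨0, 0, 0, 0⟩
  q00 := ⟨0, 0, 0, 0⟩
  q01 := ⟨0, 0, 0, 0⟩
  q02 := ⟨0, 0, 0, 0⟩
  q03 := ⟨0, 0, 0, 0⟩
  q10 := ⟨0, 0, 0, 0⟩
  q11 := ⟨0, 0, 0, 0⟩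
  q12 := ⟨0, 0, 0, 0⟩
  q20 := ⟨0, 0, 0, 0⟩
  q21 := ⟨0, 0, 0, 0⟩
  q30 := ⟨0, 0, 0, 0⟩
  n000 := ⟨0, 0, 0, 0⟩
  n001 := ⟨0, 0, 0, 0⟩
  n002 := ⟨0, 0, 0, 0⟩
  n010 := ⟨0, 0, 0, 0⟩
  n011 := ⟨0, 0, 0, 0⟩
  n020 := ⟨0, 0, 0, 0⟩
  n100 := ⟨0, 0, 0, 0⟩
  n101 := ⟨0, 0, 0, 0⟩
  n110 := ⟨0, 0, 0, 0⟩
  n200 := ⟨0, 0, 0, 0⟩
  n201 := ⟨0, 0, 0, 0⟩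
  n210 := ⟨0, 0, 0, 0⟩
  n300 := ⟨0, 0, 0, 0⟩
  n400 := ⟨0, 0, 0, 0⟩
  n500 := ⟨0, 0, 0, 0⟩
  e00 := ⟨0, 0, 0, 0⟩
  e01 := ⟨0, 0, 0, 0⟩
  e02 := ⟨0, 0, 0, 0⟩
  e03 := ⟨0, 0, 0, 0⟩
  e10 := ⟨0, 0, 0, 0⟩
  e11 := ⟨0, 0, 0, 0⟩
  B1 := 0

def p13 : Pm where
  ec := ⟨5888802816, 0, 0, 0⟩
  bc := ⟨0, 0, 0, 0⟩
  nn := ⟨15393162788864, 0, 0, 0⟩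
  tj := ⟨32985348833280, 0, 0, 0⟩
  ca := ⟨80799072256, 0, 0, 0⟩
  cb := ⟨11005853696, 0, 0, 0⟩
  cc := ⟨0, 0, 0, 0⟩
  ax := ⟨0, 0, 0, 0⟩
  ay := ⟨0, 0, 0, 0⟩
  xa := ⟨0, 0, 0, 0⟩
  C2 := ⟨0, 0, 0, 0⟩
  wr := ⟨0, 572035956736, 0, 0⟩
  wi := ⟨5872294035456, 0, 0, 0⟩
  w1 := ⟨0, 53395033423872, 0, 0⟩
  h000 := ⟨272971904, 0, 0, 0⟩
  h001 := ⟨489062528, 0, 0, 0⟩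
  h002 := ⟨2656412416, 0, 0, 0⟩
  h003 := ⟨0, 1306548416, 0, 0⟩
  h010 := ⟨0, 347497083008, 0, 0⟩
  h011 := ⟨676619660672, 0, 0, 0⟩
  h012 := ⟨0, 0, 0, 0⟩
  h020 := ⟨8480923749376, 0, 0, 0⟩
  h021 := ⟨0, 0, 0, 0⟩
  h030 := ⟨0, 0, 0, 0⟩
  h100 := ⟨188632576, 0, 0, 0⟩
  h101 := ⟨0, 966097280, 0, 0⟩
  h102 := ⟨0, 513224704, 0, 0⟩
  h110 := ⟨0, 52829926912, 0, 0⟩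
  h111 := ⟨0, 343015587136, 0, 0⟩
  h120 := ⟨0, 0, 0, 0⟩
  h200 := ⟨0, 233343552, 0, 0⟩
  h201 := ⟨194361024, 0, 0, 0⟩
  h202 := ⟨155037952, 0, 0, 0⟩
  h210 := ⟨23454181312, 0, 0, 0⟩
  h211 := ⟨0, 0, 0, 0⟩
  h300 := ⟨33256640, 0, 0, 0⟩
  h301 := ⟨0, 22647360, 0, 0⟩
  h310 := ⟨0, 323837248, 0, 0⟩
  h400 := ⟨2781952, 0, 0, 0⟩
  h401 := ⟨0, 864128, 0, 0⟩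
  h410 := ⟨0, 0, 0, 0⟩
  h500 := ⟨0, 1356160, 0, 0⟩
  h501 := ⟨0, 0, 0, 0⟩
  h600 := ⟨220928, 0, 0, 0⟩
  h700 := ⟨0, 0, 0, 0⟩
  h800 := ⟨0, 0, 0, 0⟩
  m000 := ⟨1100032901120, 0, 0, 0⟩
  m001 := ⟨0, 405012480, 0, 0⟩
  m002 := ⟨373161984, 0, 0, 0⟩
  m010 := ⟨90580975616, 0, 0, 0⟩
  m100 := ⟨2930180096, 0, 0, 0⟩
  m101 := ⟨40566784, 0, 0, 0⟩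
  m110 := ⟨527583084544, 0, 0, 0⟩
  m200 := ⟨0, 19136512, 0, 0⟩
  m300 := ⟨4325376, 0, 0, 0⟩
  a00 := ⟨35632513024, 0, 0, 0⟩
  a01 := ⟨0, 60640002048, 0, 0⟩
  a02 := ⟨216053121024, 0, 0, 0⟩
  a03 := ⟨0, 396490047488, 0, 0⟩
  a10 := ⟨0, 12520334884864, 0, 0⟩
  a11 := ⟨14066403115008, 0, 0, 0⟩
  b00 := ⟨32603963392, 0, 0, 0⟩
  b01 := ⟨0, 58625425408, 0, 0⟩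
  b02 := ⟨205316096000, 0, 0, 0⟩
  b03 := ⟨0, 358388400128, 0, 0⟩
  b10 := ⟨0, 12246480584704, 0, 0⟩
  b11 := ⟨14538102276096, 0, 0, 0⟩
  t00 := ⟨377308839936, 0, 0, 0⟩
  t01 := ⟨0, 927887458304, 0, 0⟩
  t02 := ⟨2814805409792, 0, 0, 0⟩
  t03 := ⟨0, 4772579246080, 0, 0⟩
  t10 := ⟨0, 127043395911680, 0, 0⟩
  t11 := ⟨215672181096448, 0, 0, 0⟩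
  s00 := ⟨11515075493888, 0, 0, 0⟩
  s01 := ⟨0, 20583342735360, 0, 0⟩
  s02 := ⟨60004947263488, 0, 0, 0⟩
  s03 := ⟨0, 114869041954816, 0, 0⟩
  s10 := ⟨0, 1229639096532992, 0, 0⟩
  s11 := ⟨837087229771776, 0, 0, 0⟩
  g00 := ⟨19514988160, 0, 0, 0⟩
  g01 := ⟨498263168, 0, 0, 0⟩
  g10 := ⟨4987442569344, 0, 0, 0⟩
  g11 := ⟨0, 0, 0, 0⟩
  f00 := ⟨0, 23726705472, 0, 0⟩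
  f01 := ⟨83390860096, 0, 0, 0⟩
  f10 := ⟨11549735263680, 0, 0, 0⟩
  f11 := ⟨0, 0, 0, 0⟩
  l000 := ⟨0, 0, 0, 0⟩
  l001 := ⟨0, 0, 0, 0⟩
  l002 := ⟨0, 0, 0, 0⟩
  l010 := ⟨0, 0, 0, 0⟩
  l011 := ⟨0, 0, 0, 0⟩
  l020 := ⟨0, 0, 0, 0⟩
  l100 := ⟨0, 0, 0, 0⟩
  l101 := ⟨0, 0, 0, 0⟩
  l102 := ⟨0, 0, 0, 0⟩
  l110 := ⟨0, 0, 0, 0⟩
  l111 := ⟨0, 0, 0, 0⟩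
  l120 := ⟨0, 0, 0, 0⟩
  l200 := ⟨0, 0, 0, 0⟩
  l201 := ⟨0, 0, 0, 0⟩
  l210 := ⟨0, 0, 0, 0⟩
  l300 := ⟨0, 0, 0, 0⟩
  l301 := ⟨0, 0, 0, 0⟩
  l310 := ⟨0, 0, 0, 0⟩
  l400 := ⟨0, 0, 0, 0⟩
  l401 := ⟨0, 0, 0, 0⟩
  l410 := ⟨0, 0, 0, 0⟩
  l500 := ⟨0, 0, 0, 0⟩
  l501 := ⟨0, 0, 0, 0⟩
  l510 := ⟨0, 0, 0, 0⟩
  l600 := ⟨0, 0, 0, 0⟩
  l700 := ⟨0, 0, 0, 0⟩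
  l800 := ⟨0, 0, 0, 0⟩
  l900 := ⟨0, 0, 0, 0⟩
  l1000 := ⟨0, 0, 0, 0⟩
  l1100 := ⟨0, 0, 0, 0⟩
  q00 := ⟨0, 0, 0, 0⟩
  q01 := ⟨0, 0, 0, 0⟩
  q02 := ⟨0, 0, 0, 0⟩
  q03 := ⟨0, 0, 0, 0⟩
  q10 := ⟨0, 0, 0, 0⟩
  q11 := ⟨0, 0, 0, 0⟩
  q12 := ⟨0, 0, 0, 0⟩
  q20 := ⟨0, 0, 0, 0⟩
  q21 := ⟨0, 0, 0, 0⟩
  q30 := ⟨0, 0, 0, 0⟩
  n000 := ⟨0, 0, 0, 0⟩
  n001 := ⟨0, 0, 0, 0⟩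
  n002 := ⟨0, 0, 0, 0⟩
  n010 := ⟨0, 0, 0, 0⟩
  n011 := ⟨0, 0, 0, 0⟩
  n020 := ⟨0, 0, 0, 0⟩
  n100 := ⟨0, 0, 0, 0⟩
  n101 := ⟨0, 0, 0, 0⟩
  n110 := ⟨0, 0, 0, 0⟩
  n200 := ⟨0, 0, 0, 0⟩
  n201 := ⟨0, 0, 0, 0⟩
  n210 := ⟨0, 0, 0, 0⟩
  n300 := ⟨0, 0, 0, 0⟩
  n400 := ⟨0, 0, 0, 0⟩
  n500 := ⟨0, 0, 0, 0⟩
  e00 := ⟨0, 0, 0, 0⟩
  e01 := ⟨0, 0, 0, 0⟩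
  e02 := ⟨0, 0, 0, 0⟩
  e03 := ⟨0, 0, 0, 0⟩
  e10 := ⟨0, 0, 0, 0⟩
  e11 := ⟨0, 0, 0, 0⟩
  B1 := 0

def p14 : Pm where
  ec := ⟨5888802816, 0, 0, 0⟩
  bc := ⟨0, 0, 0, 0⟩
  nn := ⟨16492674416640, 0, 0, 0⟩
  tj := ⟨35184372088832, 0, 0, 0⟩
  ca := ⟨11005853696, 0, 0, 0⟩
  cb := ⟨0, 0, 0, 0⟩
  cc := ⟨0, 0, 0, 0⟩
  ax := ⟨0, 0, 0, 0⟩
  ay := ⟨274877906944, 0, 0, 0⟩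
  xa := ⟨9345848836096, 0, 0, 0⟩
  C2 := ⟨1343847545856, 0, 0, 0⟩
  wr := ⟨0, 572035956736, 0, 0⟩
  wi := ⟨5872294035456, 0, 0, 0⟩
  w1 := ⟨0, 53395033423872, 0, 0⟩
  h000 := ⟨272971904, 0, 0, 0⟩
  h001 := ⟨489062528, 0, 0, 0⟩
  h002 := ⟨2656412416, 0, 0, 0⟩
  h003 := ⟨0, 1306548416, 0, 0⟩
  h010 := ⟨0, 347497083008, 0, 0⟩
  h011 := ⟨676619660672, 0, 0, 0⟩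
  h012 := ⟨0, 0, 0, 0⟩
  h020 := ⟨8480923749376, 0, 0, 0⟩
  h021 := ⟨0, 0, 0, 0⟩
  h030 := ⟨0, 0, 0, 0⟩
  h100 := ⟨188632576, 0, 0, 0⟩
  h101 := ⟨0, 966097280, 0, 0⟩
  h102 := ⟨0, 513224704, 0, 0⟩
  h110 := ⟨0, 52829926912, 0, 0⟩
  h111 := ⟨0, 343015587136, 0, 0⟩
  h120 := ⟨0, 0, 0, 0⟩
  h200 := ⟨0, 233343552, 0, 0⟩
  h201 := ⟨194361024, 0, 0, 0⟩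
  h202 := ⟨155037952, 0, 0, 0⟩
  h210 := ⟨23454181312, 0, 0, 0⟩
  h211 := ⟨0, 0, 0, 0⟩
  h300 := ⟨33256640, 0, 0, 0⟩
  h301 := ⟨0, 22647360, 0, 0⟩
  h310 := ⟨0, 323837248, 0, 0⟩
  h400 := ⟨2781952, 0, 0, 0⟩
  h401 := ⟨0, 864128, 0, 0⟩
  h410 := ⟨0, 0, 0, 0⟩
  h500 := ⟨0, 1356160, 0, 0⟩
  h501 := ⟨0, 0, 0, 0⟩
  h600 := ⟨220928, 0, 0, 0⟩
  h700 := ⟨0, 0, 0, 0⟩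
  h800 := ⟨0, 0, 0, 0⟩
  m000 := ⟨1099713609728, 0, 0, 0⟩
  m001 := ⟨0, 92340224, 0, 0⟩
  m002 := ⟨725745664, 0, 0, 0⟩
  m010 := ⟨0, 40056717312, 0, 0⟩
  m100 := ⟨2949185536, 0, 0, 0⟩
  m101 := ⟨0, 14483456, 0, 0⟩
  m110 := ⟨532603404288, 0, 0, 0⟩
  m200 := ⟨0, 11141120, 0, 0⟩
  m300 := ⟨2293760, 0, 0, 0⟩
  a00 := ⟨32603963392, 0, 0, 0⟩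
  a01 := ⟨0, 58625425408, 0, 0⟩
  a02 := ⟨205316096000, 0, 0, 0⟩
  a03 := ⟨0, 358388400128, 0, 0⟩
  a10 := ⟨0, 12246480584704, 0, 0⟩
  a11 := ⟨14538102276096, 0, 0, 0⟩
  b00 := ⟨0, 0, 0, 0⟩
  b01 := ⟨0, 0, 0, 0⟩
  b02 := ⟨0, 0, 0, 0⟩
  b03 := ⟨0, 0, 0, 0⟩
  b10 := ⟨0, 0, 0, 0⟩
  b11 := ⟨0, 0, 0, 0⟩
  t00 := ⟨345355583488, 0, 0, 0⟩
  t01 := ⟨0, 874484727808, 0, 0⟩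
  t02 := ⟨2654618845184, 0, 0, 0⟩
  t03 := ⟨0, 4313293651968, 0, 0⟩
  t10 := ⟨0, 124548467916800, 0, 0⟩
  t11 := ⟨218323265585152, 0, 0, 0⟩
  s00 := ⟨11892384333824, 0, 0, 0⟩
  s01 := ⟨0, 21511230193664, 0, 0⟩
  s02 := ⟨62819752673280, 0, 0, 0⟩
  s03 := ⟨0, 119641621200896, 0, 0⟩
  s10 := ⟨0, 1356682492444672, 0, 0⟩
  s11 := ⟨1052759410868224, 0, 0, 0⟩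
  g00 := ⟨19514988160, 0, 0, 0⟩
  g01 := ⟨498263168, 0, 0, 0⟩
  g10 := ⟨4987442569344, 0, 0, 0⟩
  g11 := ⟨0, 0, 0, 0⟩
  f00 := ⟨0, 23726705472, 0, 0⟩
  f01 := ⟨83390860096, 0, 0, 0⟩
  f10 := ⟨11549735263680, 0, 0, 0⟩
  f11 := ⟨0, 0, 0, 0⟩
  l000 := ⟨0, 0, 0, 0⟩
  l001 := ⟨0, 0, 0, 0⟩
  l002 := ⟨0, 0, 0, 0⟩
  l010 := ⟨0, 0, 0, 0⟩
  l011 := ⟨0, 0, 0, 0⟩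
  l020 := ⟨0, 0, 0, 0⟩
  l100 := ⟨0, 0, 0, 0⟩
  l101 := ⟨0, 0, 0, 0⟩
  l102 := ⟨0, 0, 0, 0⟩
  l110 := ⟨0, 0, 0, 0⟩
  l111 := ⟨0, 0, 0, 0⟩
  l120 := ⟨0, 0, 0, 0⟩
  l200 := ⟨0, 0, 0, 0⟩
  l201 := ⟨0, 0, 0, 0⟩
  l210 := ⟨0, 0, 0, 0⟩
  l300 := ⟨0, 0, 0, 0⟩
  l301 := ⟨0, 0, 0, 0⟩
  l310 := ⟨0, 0, 0, 0⟩
  l400 := ⟨0, 0, 0, 0⟩
  l401 := ⟨0, 0, 0, 0⟩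
  l410 := ⟨0, 0, 0, 0⟩
  l500 := ⟨0, 0, 0, 0⟩
  l501 := ⟨0, 0, 0, 0⟩
  l510 := ⟨0, 0, 0, 0⟩
  l600 := ⟨0, 0, 0, 0⟩
  l700 := ⟨0, 0, 0, 0⟩
  l800 := ⟨0, 0, 0, 0⟩
  l900 := ⟨0, 0, 0, 0⟩
  l1000 := ⟨0, 0, 0, 0⟩
  l1100 := ⟨0, 0, 0, 0⟩
  q00 := ⟨0, 0, 0, 0⟩
  q01 := ⟨0, 0, 0, 0⟩
  q02 := ⟨0, 0, 0, 0⟩
  q03 := ⟨0, 0, 0, 0⟩
  q10 := ⟨0, 0, 0, 0⟩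
  q11 := ⟨0, 0, 0, 0⟩
  q12 := ⟨0, 0, 0, 0⟩
  q20 := ⟨0, 0, 0, 0⟩
  q21 := ⟨0, 0, 0, 0⟩
  q30 := ⟨0, 0, 0, 0⟩
  n000 := ⟨0, 0, 0, 0⟩
  n001 := ⟨0, 0, 0, 0⟩
  n002 := ⟨0, 0, 0, 0⟩
  n010 := ⟨0, 0, 0, 0⟩
  n011 := ⟨0, 0, 0, 0⟩
  n020 := ⟨0, 0, 0, 0⟩
  n100 := ⟨0, 0, 0, 0⟩
  n101 := ⟨0, 0, 0, 0⟩
  n110 := ⟨0, 0, 0, 0⟩
  n200 := ⟨0, 0, 0, 0⟩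
  n201 := ⟨0, 0, 0, 0⟩
  n210 := ⟨0, 0, 0, 0⟩
  n300 := ⟨0, 0, 0, 0⟩
  n400 := ⟨0, 0, 0, 0⟩
  n500 := ⟨0, 0, 0, 0⟩
  e00 := ⟨0, 0, 0, 0⟩
  e01 := ⟨0, 0, 0, 0⟩
  e02 := ⟨0, 0, 0, 0⟩
  e03 := ⟨0, 0, 0, 0⟩
  e10 := ⟨0, 0, 0, 0⟩
  e11 := ⟨0, 0, 0, 0⟩
  B1 := 1649267441664

def pF : Pm where
  ec := ⟨5888802816, 0, 0, 0⟩
  bc := ⟨0, 0, 0, 0⟩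
  nn := ⟨0, 0, 0, 0⟩
  tj := ⟨2199023255552, 0, 0, 0⟩
  ca := ⟨989453090816, 0, 0, 0⟩
  cb := ⟨0, 0, 0, 0⟩
  cc := ⟨879662989312, 0, 0, 0⟩
  ax := ⟨0, 0, 0, 0⟩
  ay := ⟨0, 0, 0, 0⟩
  xa := ⟨0, 0, 0, 0⟩
  C2 := ⟨0, 0, 0, 0⟩
  wr := ⟨0, 572035956736, 0, 0⟩
  wi := ⟨5872294035456, 0, 0, 0⟩
  w1 := ⟨0, 53395033423872, 0, 0⟩
  h000 := ⟨272971904, 0, 0, 0⟩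
  h001 := ⟨489062528, 0, 0, 0⟩
  h002 := ⟨2656412416, 0, 0, 0⟩
  h003 := ⟨0, 1306548416, 0, 0⟩
  h010 := ⟨0, 347497083008, 0, 0⟩
  h011 := ⟨676619660672, 0, 0, 0⟩
  h012 := ⟨0, 0, 0, 0⟩
  h020 := ⟨8480923749376, 0, 0, 0⟩
  h021 := ⟨0, 0, 0, 0⟩
  h030 := ⟨0, 0, 0, 0⟩
  h100 := ⟨188632576, 0, 0, 0⟩
  h101 := ⟨0, 966097280, 0, 0⟩
  h102 := ⟨0, 513224704, 0, 0⟩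
  h110 := ⟨0, 52829926912, 0, 0⟩
  h111 := ⟨0, 343015587136, 0, 0⟩
  h120 := ⟨0, 0, 0, 0⟩
  h200 := ⟨0, 233343552, 0, 0⟩
  h201 := ⟨194361024, 0, 0, 0⟩
  h202 := ⟨155037952, 0, 0, 0⟩
  h210 := ⟨23454181312, 0, 0, 0⟩
  h211 := ⟨0, 0, 0, 0⟩
  h300 := ⟨33256640, 0, 0, 0⟩
  h301 := ⟨0, 22647360, 0, 0⟩
  h310 := ⟨0, 323837248, 0, 0⟩
  h400 := ⟨2781952, 0, 0, 0⟩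
  h401 := ⟨0, 864128, 0, 0⟩
  h410 := ⟨0, 0, 0, 0⟩
  h500 := ⟨0, 1356160, 0, 0⟩
  h501 := ⟨0, 0, 0, 0⟩
  h600 := ⟨220928, 0, 0, 0⟩
  h700 := ⟨0, 0, 0, 0⟩
  h800 := ⟨0, 0, 0, 0⟩
  m000 := ⟨0, 0, 0, 0⟩
  m001 := ⟨0, 0, 0, 0⟩
  m002 := ⟨0, 0, 0, 0⟩
  m010 := ⟨0, 0, 0, 0⟩
  m100 := ⟨0, 0, 0, 0⟩
  m101 := ⟨0, 0, 0, 0⟩
  m110 := ⟨0, 0, 0, 0⟩
  m200 := ⟨0, 0, 0, 0⟩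
  m300 := ⟨0, 0, 0, 0⟩
  a00 := ⟨117940617216, 0, 0, 0⟩
  a01 := ⟨0, 39049035776, 0, 0⟩
  a02 := ⟨462357856256, 0, 0, 0⟩
  a03 := ⟨0, 1310711545856, 0, 0⟩
  a10 := ⟨0, 1738259955712, 0, 0⟩
  a11 := ⟨0, 41124760125440, 0, 0⟩
  b00 := ⟨0, 0, 0, 0⟩
  b01 := ⟨0, 0, 0, 0⟩
  b02 := ⟨0, 0, 0, 0⟩
  b03 := ⟨0, 0, 0, 0⟩
  b10 := ⟨0, 0, 0, 0⟩
  b11 := ⟨0, 0, 0, 0⟩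
  t00 := ⟨1836156190720, 0, 0, 0⟩
  t01 := ⟨0, 3969712128, 0, 0⟩
  t02 := ⟨236713738240, 0, 0, 0⟩
  t03 := ⟨0, 642380070912, 0, 0⟩
  t10 := ⟨626396364800, 0, 0, 0⟩
  t11 := ⟨0, 6380609994752, 0, 0⟩
  s00 := ⟨0, 0, 0, 0⟩
  s01 := ⟨0, 0, 0, 0⟩
  s02 := ⟨0, 0, 0, 0⟩
  s03 := ⟨0, 0, 0, 0⟩
  s10 := ⟨0, 0, 0, 0⟩
  s11 := ⟨0, 0, 0, 0⟩
  g00 := ⟨19514988160, 0, 0, 0⟩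
  g01 := ⟨498263168, 0, 0, 0⟩
  g10 := ⟨4987442569344, 0, 0, 0⟩
  g11 := ⟨0, 0, 0, 0⟩
  f00 := ⟨0, 23726705472, 0, 0⟩
  f01 := ⟨83390860096, 0, 0, 0⟩
  f10 := ⟨11549735263680, 0, 0, 0⟩
  f11 := ⟨0, 0, 0, 0⟩
  l000 := ⟨3452720036224, 0, 0, 0⟩
  l001 := ⟨5134441728, 0, 0, 0⟩
  l002 := ⟨0, 0, 0, 0⟩
  l010 := ⟨13079357366592, 0, 0, 0⟩
  l011 := ⟨0, 0, 0, 0⟩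
  l020 := ⟨0, 0, 0, 0⟩
  l100 := ⟨1609462402816, 0, 0, 0⟩
  l101 := ⟨0, 27754789568, 0, 0⟩
  l102 := ⟨0, 0, 0, 0⟩
  l110 := ⟨0, 81904242411072, 0, 0⟩
  l111 := ⟨0, 0, 0, 0⟩
  l120 := ⟨0, 0, 0, 0⟩
  l200 := ⟨1043532161920, 0, 0, 0⟩
  l201 := ⟨45092250176, 0, 0, 0⟩
  l210 := ⟨199145193346816, 0, 0, 0⟩
  l300 := ⟨0, 1599295973184, 0, 0⟩
  l301 := ⟨0, 114407583168, 0, 0⟩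
  l310 := ⟨0, 379033977067264, 0, 0⟩
  l400 := ⟨6365208482624, 0, 0, 0⟩
  l401 := ⟨90151233152, 0, 0, 0⟩
  l410 := ⟨374510077834304, 0, 0, 0⟩
  l500 := ⟨0, 20396863236544, 0, 0⟩
  l501 := ⟨0, 65448569088, 0, 0⟩
  l510 := ⟨0, 190165631469888, 0, 0⟩
  l600 := ⟨42186553724416, 0, 0, 0⟩
  l700 := ⟨0, 80735895731648, 0, 0⟩
  l800 := ⟨101588826641600, 0, 0, 0⟩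
  l900 := ⟨0, 114120613371264, 0, 0⟩
  l1000 := ⟨72950900268224, 0, 0, 0⟩
  l1100 := ⟨0, 39411760862272, 0, 0⟩
  q00 := ⟨0, 4360770112, 0, 0⟩
  q01 := ⟨53570780480, 0, 0, 0⟩
  q02 := ⟨0, 56850882176, 0, 0⟩
  q03 := ⟨0, 0, 0, 0⟩
  q10 := ⟨423297796672, 0, 0, 0⟩
  q11 := ⟨1137285040384, 0, 0, 0⟩
  q12 := ⟨0, 0, 0, 0⟩
  q20 := ⟨0, 4502500115742720, 0, 0⟩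
  q21 := ⟨0, 0, 0, 0⟩
  q30 := ⟨0, 0, 0, 0⟩
  n000 := ⟨1095013171200, 0, 0, 0⟩
  n001 := ⟨0, 1303576576, 0, 0⟩
  n002 := ⟨18039111680, 0, 0, 0⟩
  n010 := ⟨1552399400960, 0, 0, 0⟩
  n011 := ⟨5465192464384, 0, 0, 0⟩
  n020 := ⟨2008315532279808, 0, 0, 0⟩
  n100 := ⟨12676890624, 0, 0, 0⟩
  n101 := ⟨189333504, 0, 0, 0⟩
  n110 := ⟨177766727680, 0, 0, 0⟩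
  n200 := ⟨0, 40030306304, 0, 0⟩
  n201 := ⟨6362300416, 0, 0, 0⟩
  n210 := ⟨13129475620864, 0, 0, 0⟩
  n300 := ⟨41871540224, 0, 0, 0⟩
  n400 := ⟨0, 78942109696, 0, 0⟩
  n500 := ⟨0, 113759027200, 0, 0⟩
  e00 := ⟨222061395968, 0, 0, 0⟩
  e01 := ⟨0, 110007156736, 0, 0⟩
  e02 := ⟨1130663903232, 0, 0, 0⟩
  e03 := ⟨0, 1878558310400, 0, 0⟩
  e10 := ⟨0, 15511794483200, 0, 0⟩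
  e11 := ⟨0, 37700210851840, 0, 0⟩
  B1 := 0

end Pool.Agent.helper12.K175
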