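import Pool.Agent.helper12.GS.MAQP
import Pool.Agent.helper12.GS.MBQP
import Pool.Agent.helper12.K175.P

/-!
Generated certificates.
-/

namespace Pool.Agent.helper12.K175

open Pool.Agent.helper31.IX (Cov cov_split)
open Pool.Agent.helper12.GS
open Pool.Agent.helper14.QF (cov_E)

mutual
theorem N0A : Cov 1 (MAQ.prog0 p0) [(5889851392, 393216000), (77309411328, 77309411328), (549755813888, 549755813888)] :=
  cov_E (MAQ.chkB0_eq p0) (.n 2 (.n 2 (.n 2 .l .l) (.n 2 .l .l)) (.n 1 (.n 2 .l .l) (.n 2 .l .l)))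
    [(5889851392, 393216000), (77309411328, 77309411328), (549755813888, 549755813888)] rfl (by decide +kernel)
theorem N0B0 : Cov 1 (MBQ.prog0 p0) [(5889851392, 393216000), (54975791104, 54975791104), (549755813888, 549755813888)] :=
  cov_E (MBQ.chkB0_eq p0) (.n 1 (.n 2 (.n 2 .l .l) (.n 2 .l .l)) (.n 2 (.n 2 .l .l) (.n 2 .l (.n 0 .l .l))))
    [(5889851392, 393216000), (54975791104, 54975791104), (549755813888, 549755813888)] rfl (by decide +kernel)
end

mutual
theorem N0B1 : Cov 1 (MBQ.prog0 p0) [(5889851392, 393216000), (142936637440, 32986103808), (386547056640, 386547056640)] :=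
  cov_E (MBQ.chkB0_eq p0) (.n 2 (.n 1 .l .l) (.n 2 .l .l))
    [(5889851392, 393216000), (142936637440, 32986103808), (386547056640, 386547056640)] rfl (by decide +kernel)
theorem N0B2 : Cov 1 (MBQ.prog0 p0) [(5889851392, 393216000), (225399799808, 49478107136), (241591910400, 241591910400)] :=
  cov_E (MBQ.chkB0_eq p0) (.n 2 .l (.n 1 .l .l))
    [(5889851392, 393216000), (225399799808, 49478107136), (241591910400, 241591910400)] rfl (by decide +kernel)
end

mutual
theorem N1A : Cov 1 (MAQ.prog0 p1) [(5889851392, 393216000), (77309411328, 77309411328), (549755813888, 549755813888)] :=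
  cov_E (MAQ.chkB0_eq p1) (.n 1 (.n 2 (.n 2 (.n 2 .l .l) (.n 2 .l .l)) (.n 2 .l .l)) (.n 2 (.n 2 (.n 2 .l .l) (.n 2 .l .l)) (.n 2 .l .l)))
    [(5889851392, 393216000), (77309411328, 77309411328), (549755813888, 549755813888)] rfl (by decide +kernel)
theorem N1B0 : Cov 1 (MBQ.prog0 p1) [(5889851392, 393216000), (54975791104, 54975791104), (549755813888, 549755813888)] :=
  cov_E (MBQ.chkB0_eq p1) (.n 1 (.n 2 (.n 2 .l .l) (.n 2 .l (.n 0 .l .l))) (.n 2 (.n 2 .l .l) (.n 2 .l (.n 1 .l .l))))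
    [(5889851392, 393216000), (54975791104, 54975791104), (549755813888, 549755813888)] rfl (by decide +kernel)
end

mutual
theorem N1B1 : Cov 1 (MBQ.prog0 p1) [(5889851392, 393216000), (142936637440, 32986103808), (386547056640, 386547056640)] :=
  cov_E (MBQ.chkB0_eq p1) (.n 2 (.n 2 .l .l) (.n 2 .l .l))
    [(5889851392, 393216000), (142936637440, 32986103808), (386547056640, 386547056640)] rfl (by decide +kernel)
theorem N1B2 : Cov 1 (MBQ.prog0 p1) [(5889851392, 393216000), (225399799808, 49478107136), (241591910400, 241591910400)] :=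
  cov_E (MBQ.chkB0_eq p1) (.n 1 (.n 2 .l .l) (.n 2 .l .l))
    [(5889851392, 393216000), (225399799808, 49478107136), (241591910400, 241591910400)] rfl (by decide +kernel)
end

mutual
theorem N2A : Cov 1 (MAQ.prog0 p2) [(5889851392, 393216000), (77309411328, 77309411328), (549755813888, 549755813888)] :=
  cov_E (MAQ.chkB0_eq p2) (.n 1 (.n 2 (.n 2 (.n 2 .l .l) (.n 2 .l .l)) (.n 2 .l .l)) (.n 2 (.n 2 (.n 2 .l .l) (.n 2 .l .l)) (.n 2 .l .l)))
    [(5889851392, 393216000), (77309411328, 77309411328), (549755813888, 549755813888)] rfl (by decide +kernel)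
theorem N2B0 : Cov 1 (MBQ.prog0 p2) [(5889851392, 393216000), (54975791104, 54975791104), (549755813888, 549755813888)] :=
  cov_E (MBQ.chkB0_eq p2) (.n 1 (.n 2 (.n 2 .l .l) (.n 2 .l (.n 0 .l .l))) (.n 2 (.n 2 .l .l) (.n 1 (.n 2 .l .l) (.n 2 .l .l))))
    [(5889851392, 393216000), (54975791104, 54975791104), (549755813888, 549755813888)] rfl (by decide +kernel)
end

mutual
theorem N2B1 : Cov 1 (MBQ.prog0 p2) [(5889851392, 393216000), (142936637440, 32986103808), (386547056640, 386547056640)] :=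
  cov_E (MBQ.chkB0_eq p2) (.n 2 (.n 2 .l .l) (.n 2 .l .l))
    [(5889851392, 393216000), (142936637440, 32986103808), (386547056640, 386547056640)] rfl (by decide +kernel)
theorem N2B2 : Cov 1 (MBQ.prog0 p2) [(5889851392, 393216000), (225399799808, 49478107136), (241591910400, 241591910400)] :=
  cov_E (MBQ.chkB0_eq p2) (.n 1 (.n 2 .l .l) (.n 2 .l .l))
    [(5889851392, 393216000), (225399799808, 49478107136), (241591910400, 241591910400)] rfl (by decide +kernel)
end

mutual
theorem N3A : Cov 1 (MAQ.prog0 p3) [(5889851392, 393216000), (77309411328, 77309411328), (549755813888, 549755813888)] :=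
  cov_E (MAQ.chkB0_eq p3) (.n 1 (.n 2 (.n 2 (.n 2 .l .l) (.n 2 .l .l)) (.n 2 .l .l)) (.n 2 (.n 2 (.n 2 .l .l) (.n 2 .l .l)) (.n 2 .l .l)))
    [(5889851392, 393216000), (77309411328, 77309411328), (549755813888, 549755813888)] rfl (by decide +kernel)
theorem N3B0 : Cov 1 (MBQ.prog0 p3) [(5889851392, 393216000), (54975791104, 54975791104), (549755813888, 549755813888)] :=
  cov_E (MBQ.chkB0_eq p3) (.n 1 (.n 2 (.n 2 .l .l) (.n 1 (.n 2 .l .l) (.n 2 .l .l))) (.n 2 (.n 2 .l .l) (.n 1 (.n 2 .l .l) (.n 2 .l .l))))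
    [(5889851392, 393216000), (54975791104, 54975791104), (549755813888, 549755813888)] rfl (by decide +kernel)
end

mutual
theorem N3B1 : Cov 1 (MBQ.prog0 p3) [(5889851392, 393216000), (142936637440, 32986103808), (386547056640, 386547056640)] :=
  cov_E (MBQ.chkB0_eq p3) (.n 2 (.n 2 .l .l) (.n 2 .l (.n 0 .l .l)))
    [(5889851392, 393216000), (142936637440, 32986103808), (386547056640, 386547056640)] rfl (by decide +kernel)
theorem N3B2 : Cov 1 (MBQ.prog0 p3) [(5889851392, 393216000), (225399799808, 49478107136), (241591910400, 241591910400)] :=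
  cov_E (MBQ.chkB0_eq p3) (.n 2 (.n 1 .l .l) (.n 2 .l .l))
    [(5889851392, 393216000), (225399799808, 49478107136), (241591910400, 241591910400)] rfl (by decide +kernel)
end

mutual
theorem N4A : Cov 1 (MAQ.prog0 p4) [(5889851392, 393216000), (77309411328, 77309411328), (549755813888, 549755813888)] :=
  cov_E (MAQ.chkB0_eq p4) (.n 1 (.n 2 (.n 2 (.n 2 .l .l) (.n 2 .l .l)) (.n 2 .l .l)) (.n 2 (.n 2 (.n 2 .l .l) (.n 2 .l .l)) (.n 2 (.n 0 .l .l) .l)))
    [(5889851392, 393216000), (77309411328, 77309411328), (549755813888, 549755813888)] rfl (by decide +kernel)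
theorem N4B0 : Cov 1 (MBQ.prog0 p4) [(5889851392, 393216000), (54975791104, 54975791104), (549755813888, 549755813888)] :=
  cov_E (MBQ.chkB0_eq p4) (.n 1 (.n 2 (.n 2 .l (.n 0 .l .l)) (.n 1 (.n 2 .l .l) (.n 2 .l .l))) (.n 2 (.n 2 .l (.n 0 .l .l)) (.n 1 (.n 2 .l .l) (.n 2 .l .l))))
    [(5889851392, 393216000), (54975791104, 54975791104), (549755813888, 549755813888)] rfl (by decide +kernel)
end

mutual
theorem N4B1 : Cov 1 (MBQ.prog0 p4) [(5889851392, 393216000), (142936637440, 32986103808), (386547056640, 386547056640)] :=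
  cov_E (MBQ.chkB0_eq p4) (.n 2 (.n 2 .l .l) (.n 2 .l (.n 0 .l .l)))
    [(5889851392, 393216000), (142936637440, 32986103808), (386547056640, 386547056640)] rfl (by decide +kernel)
theorem N4B2 : Cov 1 (MBQ.prog0 p4) [(5889851392, 393216000), (225399799808, 49478107136), (241591910400, 241591910400)] :=
  cov_E (MBQ.chkB0_eq p4) (.n 1 (.n 2 .l .l) (.n 2 .l (.n 0 .l .l)))
    [(5889851392, 393216000), (225399799808, 49478107136), (241591910400, 241591910400)] rfl (by decide +kernel)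
end

mutual
theorem N5A : Cov 1 (MAQ.prog0 p5) [(5889851392, 393216000), (77309411328, 77309411328), (549755813888, 549755813888)] :=
  cov_E (MAQ.chkB0_eq p5) (.n 1 (.n 2 (.n 2 (.n 2 .l .l) (.n 2 .l .l)) (.n 2 (.n 0 .l .l) .l)) (.n 2 (.n 2 (.n 2 .l .l) (.n 2 .l .l)) (.n 2 (.n 0 .l .l) .l)))
    [(5889851392, 393216000), (77309411328, 77309411328), (549755813888, 549755813888)] rfl (by decide +kernel)
theorem N5B0 : Cov 1 (MBQ.prog0 p5) [(5889851392, 393216000), (54975791104, 54975791104), (549755813888, 549755813888)] :=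
  cov_E (MBQ.chkB0_eq p5) (.n 1 (.n 2 (.n 2 .l (.n 0 .l .l)) (.n 1 (.n 2 .l .l) (.n 2 .l .l))) (.n 2 (.n 2 .l (.n 0 .l .l)) (.n 1 (.n 2 .l .l) (.n 2 .l .l))))
    [(5889851392, 393216000), (54975791104, 54975791104), (549755813888, 549755813888)] rfl (by decide +kernel)
end

mutual
theorem N5B1 : Cov 1 (MBQ.prog0 p5) [(5889851392, 393216000), (142936637440, 32986103808), (386547056640, 386547056640)] :=
  cov_E (MBQ.chkB0_eq p5) (.n 2 (.n 2 .l .l) (.n 1 (.n 2 .l .l) (.n 2 .l .l)))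
    [(5889851392, 393216000), (142936637440, 32986103808), (386547056640, 386547056640)] rfl (by decide +kernel)
theorem N5B2 : Cov 1 (MBQ.prog0 p5) [(5889851392, 393216000), (225399799808, 49478107136), (241591910400, 241591910400)] :=
  cov_E (MBQ.chkB0_eq p5) (.n 2 (.n 1 .l .l) (.n 2 .l (.n 0 .l .l)))
    [(5889851392, 393216000), (225399799808, 49478107136), (241591910400, 241591910400)] rfl (by decide +kernel)
end

mutual
theorem N6A : Cov 1 (MAQ.prog0 p6) [(5889851392, 393216000), (77309411328, 77309411328), (549755813888, 549755813888)] :=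
  cov_E (MAQ.chkB0_eq p6) (.n 1 (.n 2 (.n 2 (.n 2 .l .l) (.n 2 .l .l)) (.n 2 (.n 0 .l .l) .l)) (.n 2 (.n 2 (.n 2 .l .l) (.n 2 .l .l)) (.n 2 (.n 0 .l .l) .l)))
    [(5889851392, 393216000), (77309411328, 77309411328), (549755813888, 549755813888)] rfl (by decide +kernel)
theorem N6B0 : Cov 1 (MBQ.prog0 p6) [(5889851392, 393216000), (54975791104, 54975791104), (549755813888, 549755813888)] :=
  cov_E (MBQ.chkB0_eq p6) (.n 2 (.n 2 (.n 2 .l (.n 0 .l .l)) (.n 1 (.n 1 .l .l) (.n 1 .l .l))) (.n 1 (.n 1 (.n 2 .l .l) (.n 2 .l .l)) (.n 2 (.n 2 .l .l) (.n 1 .l (.n 0 .l .l)))))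
    [(5889851392, 393216000), (54975791104, 54975791104), (549755813888, 549755813888)] rfl (by decide +kernel)
end

mutual
theorem N6B1 : Cov 1 (MBQ.prog0 p6) [(5889851392, 393216000), (142936637440, 32986103808), (386547056640, 386547056640)] :=
  cov_E (MBQ.chkB0_eq p6) (.n 2 (.n 2 .l .l) (.n 1 (.n 2 .l .l) (.n 2 .l .l)))
    [(5889851392, 393216000), (142936637440, 32986103808), (386547056640, 386547056640)] rfl (by decide +kernel)
theorem N6B2 : Cov 1 (MBQ.prog0 p6) [(5889851392, 393216000), (225399799808, 49478107136), (241591910400, 241591910400)] :=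
  cov_E (MBQ.chkB0_eq p6) (.n 2 (.n 2 .l .l) (.n 2 .l (.n 0 .l .l)))
    [(5889851392, 393216000), (225399799808, 49478107136), (241591910400, 241591910400)] rfl (by decide +kernel)
end

mutual
theorem N7A : Cov 1 (MAQ.prog0 p7) [(5889851392, 393216000), (77309411328, 77309411328), (549755813888, 549755813888)] :=
  cov_E (MAQ.chkB0_eq p7) (.n 1 (.n 2 (.n 2 (.n 2 .l .l) (.n 2 .l .l)) (.n 0 (.n 2 .l .l) (.n 2 .l .l))) (.n 2 (.n 2 (.n 2 .l .l) (.n 2 .l .l)) (.n 2 (.n 0 .l .l) .l)))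
    [(5889851392, 393216000), (77309411328, 77309411328), (549755813888, 549755813888)] rfl (by decide +kernel)
theorem N7B0 : Cov 1 (MBQ.prog0 p7) [(5889851392, 393216000), (54975791104, 54975791104), (549755813888, 549755813888)] :=
  cov_E (MBQ.chkB0_eq p7) (.n 2 (.n 2 (.n 2 .l (.n 0 .l .l)) (.n 1 (.n 1 .l .l) (.n 2 .l .l))) (.n 1 (.n 1 (.n 2 .l .l) (.n 2 .l .l)) (.n 2 (.n 2 .l .l) (.n 0 (.n 1 .l .l) (.n 1 .l .l)))))
    [(5889851392, 393216000), (54975791104, 54975791104), (549755813888, 549755813888)] rfl (by decide +kernel)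
end

mutual
theorem N7B1 : Cov 1 (MBQ.prog0 p7) [(5889851392, 393216000), (142936637440, 32986103808), (386547056640, 386547056640)] :=
  cov_E (MBQ.chkB0_eq p7) (.n 2 (.n 2 .l (.n 0 .l .l)) (.n 1 (.n 2 .l .l) (.n 2 .l .l)))
    [(5889851392, 393216000), (142936637440, 32986103808), (386547056640, 386547056640)] rfl (by decide +kernel)
theorem N7B2 : Cov 1 (MBQ.prog0 p7) [(5889851392, 393216000), (225399799808, 49478107136), (241591910400, 241591910400)] :=
  cov_E (MBQ.chkB0_eq p7) (.n 2 (.n 2 .l .l) (.n 1 (.n 0 .l .l) (.n 2 .l .l)))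
    [(5889851392, 393216000), (225399799808, 49478107136), (241591910400, 241591910400)] rfl (by decide +kernel)
end

mutual
theorem N8A : Cov 1 (MAQ.prog0 p8) [(5889851392, 393216000), (77309411328, 77309411328), (549755813888, 549755813888)] :=
  cov_E (MAQ.chkB0_eq p8) (.n 1 (.n 2 (.n 2 (.n 2 .l .l) (.n 2 .l .l)) (.n 0 (.n 2 .l .l) (.n 2 .l .l))) (.n 2 (.n 2 (.n 2 .l .l) (.n 2 .l .l)) (.n 0 (.n 2 .l .l) (.n 2 .l .l))))
    [(5889851392, 393216000), (77309411328, 77309411328), (549755813888, 549755813888)] rfl (by decide +kernel)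
theorem N8B0 : Cov 1 (MBQ.prog0 p8) [(5889851392, 393216000), (54975791104, 54975791104), (549755813888, 549755813888)] :=
  cov_E (MBQ.chkB0_eq p8) (.n 1 (.n 2 (.n 2 (.n 0 .l .l) (.n 2 .l .l)) (.n 2 (.n 2 .l (.n 0 .l .l)) (.n 1 .l (.n 0 .l .l)))) (.n 2 (.n 2 (.n 0 .l .l) (.n 2 .l .l)) (.n 2 (.n 2 .l (.n 0 .l .l)) (.n 0 (.n 1 .l .l) (.n 1 .l .l)))))
    [(5889851392, 393216000), (54975791104, 54975791104), (549755813888, 549755813888)] rfl (by decide +kernel)
end

mutual
theorem N8B1 : Cov 1 (MBQ.prog0 p8) [(5889851392, 393216000), (142936637440, 32986103808), (386547056640, 386547056640)] :=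
  cov_E (MBQ.chkB0_eq p8) (.n 2 (.n 2 .l (.n 0 .l .l)) (.n 1 (.n 2 .l .l) (.n 2 .l .l)))
    [(5889851392, 393216000), (142936637440, 32986103808), (386547056640, 386547056640)] rfl (by decide +kernel)
theorem N8B2 : Cov 1 (MBQ.prog0 p8) [(5889851392, 393216000), (225399799808, 49478107136), (241591910400, 241591910400)] :=
  cov_E (MBQ.chkB0_eq p8) (.n 2 (.n 2 .l .l) (.n 1 (.n 2 .l .l) (.n 2 .l .l)))
    [(5889851392, 393216000), (225399799808, 49478107136), (241591910400, 241591910400)] rfl (by decide +kernel)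
end

mutual
theorem N9A : Cov 1 (MAQ.prog0 p9) [(5889851392, 393216000), (77309411328, 77309411328), (549755813888, 549755813888)] :=
  cov_E (MAQ.chkB0_eq p9) (.n 1 (.n 2 (.n 2 (.n 2 .l .l) (.n 2 .l .l)) (.n 0 (.n 2 .l .l) (.n 2 .l .l))) (.n 2 (.n 2 (.n 2 .l .l) (.n 2 .l .l)) (.n 0 (.n 2 .l .l) (.n 2 .l .l))))
    [(5889851392, 393216000), (77309411328, 77309411328), (549755813888, 549755813888)] rfl (by decide +kernel)
theorem N9B0 : Cov 1 (MBQ.prog0 p9) [(5889851392, 393216000), (54975791104, 54975791104), (549755813888, 549755813888)] :=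
  cov_E (MBQ.chkB0_eq p9) (.n 1 (.n 2 (.n 2 (.n 2 .l .l) (.n 2 .l .l)) (.n 0 (.n 1 (.n 2 .l .l) (.n 2 .l .l)) (.n 1 (.n 2 .l .l) (.n 2 .l .l)))) (.n 2 (.n 2 (.n 2 .l .l) (.n 2 .l .l)) (.n 0 (.n 1 (.n 2 .l .l) (.n 2 .l .l)) (.n 1 (.n 2 .l .l) (.n 2 .l .l)))))
    [(5889851392, 393216000), (54975791104, 54975791104), (549755813888, 549755813888)] rfl (by decide +kernel)
end

mutual
theorem N9B1 : Cov 1 (MBQ.prog0 p9) [(5889851392, 393216000), (142936637440, 32986103808), (386547056640, 386547056640)] :=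
  cov_E (MBQ.chkB0_eq p9) (.n 2 (.n 2 .l (.n 0 .l .l)) (.n 1 (.n 2 .l .l) (.n 2 .l (.n 0 .l .l))))
    [(5889851392, 393216000), (142936637440, 32986103808), (386547056640, 386547056640)] rfl (by decide +kernel)
theorem N9B2 : Cov 1 (MBQ.prog0 p9) [(5889851392, 393216000), (225399799808, 49478107136), (241591910400, 241591910400)] :=
  cov_E (MBQ.chkB0_eq p9) (.n 2 (.n 2 .l (.n 0 .l .l)) (.n 1 (.n 2 .l .l) (.n 2 .l .l)))
    [(5889851392, 393216000), (225399799808, 49478107136), (241591910400, 241591910400)] rfl (by decide +kernel)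
end

end Pool.Agent.helper12.K175
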