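import Pool.Agent.helper12.GS.FAQP
import Pool.Agent.helper12.GS.FBQP
import Pool.Agent.helper12.GS.LAQP
import Pool.Agent.helper12.GS.LBQP
import Pool.Agent.helper12.GS.MAQP
import Pool.Agent.helper12.GS.MBQP
import Pool.Agent.helper12.K175.P

/-!
Generated certificates.
-/

namespace Pool.Agent.helper12.K175

open Pool.Agent.helper31.IX (Cov cov_split)
open Pool.Agent.helper12.GS
open Pool.Agent.helper14.QF (cov_E)

mutual
theorem N10A : Cov 1 (MAQ.prog0 p10) [(5889851392, 393216000), (77309411328, 77309411328), (549755813888, 549755813888)] :=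
  cov_E (MAQ.chkB0_eq p10) (.n 1 (.n 2 (.n 2 (.n 2 .l .l) (.n 2 .l .l)) (.n 0 (.n 2 .l .l) (.n 2 .l .l))) (.n 2 (.n 2 (.n 2 .l .l) (.n 2 .l .l)) (.n 2 (.n 2 .l .l) (.n 0 .l .l))))
    [(5889851392, 393216000), (77309411328, 77309411328), (549755813888, 549755813888)] rfl (by decide +kernel)
theorem N10B0_t1 : Cov 1 (MBQ.prog0 p10) [(5889851392, 393216000), (27487895552, 27487895552), (549755813888, 549755813888)] :=
  cov_E (MBQ.chkB0_eq p10) (.n 2 (.n 2 (.n 2 .l .l) (.n 0 (.n 1 .l .l) (.n 0 .l .l))) (.n 0 (.n 1 (.n 2 .l .l) (.n 2 .l .l)) (.n 1 (.n 2 .l .l) (.n 2 .l .l))))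
    [(5889851392, 393216000), (27487895552, 27487895552), (549755813888, 549755813888)] rfl (by decide +kernel)
end

mutual
theorem N10B0_t2 : Cov 1 (MBQ.prog0 p10) [(5889851392, 393216000), (82463686656, 27487895552), (549755813888, 549755813888)] :=
  cov_E (MBQ.chkB0_eq p10) (.n 2 (.n 2 (.n 2 .l .l) (.n 2 .l (.n 0 .l .l))) (.n 0 (.n 1 (.n 2 .l .l) (.n 2 .l .l)) (.n 1 (.n 2 .l .l) (.n 2 .l .l))))
    [(5889851392, 393216000), (82463686656, 27487895552), (549755813888, 549755813888)] rfl (by decide +kernel)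
theorem N10B1 : Cov 1 (MBQ.prog0 p10) [(5889851392, 393216000), (142936637440, 32986103808), (386547056640, 386547056640)] :=
  cov_E (MBQ.chkB0_eq p10) (.n 2 (.n 0 (.n 2 .l .l) (.n 2 .l .l)) (.n 2 (.n 2 .l .l) (.n 0 (.n 1 .l .l) (.n 1 .l .l))))
    [(5889851392, 393216000), (142936637440, 32986103808), (386547056640, 386547056640)] rfl (by decide +kernel)
end

mutual
theorem N10B2 : Cov 1 (MBQ.prog0 p10) [(5889851392, 393216000), (225399799808, 49478107136), (241591910400, 241591910400)] :=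
  cov_E (MBQ.chkB0_eq p10) (.n 2 (.n 2 .l (.n 0 .l .l)) (.n 1 (.n 2 .l .l) (.n 2 .l .l)))
    [(5889851392, 393216000), (225399799808, 49478107136), (241591910400, 241591910400)] rfl (by decide +kernel)
theorem N11A : Cov 1 (MAQ.prog0 p11) [(5889851392, 393216000), (77309411328, 77309411328), (549755813888, 549755813888)] :=
  cov_E (MAQ.chkB0_eq p11) (.n 1 (.n 2 (.n 2 (.n 2 .l (.n 0 .l .l)) (.n 0 (.n 2 .l .l) (.n 2 .l .l))) (.n 2 (.n 2 (.n 0 .l .l) .l) (.n 0 .l .l))) (.n 2 (.n 2 (.n 2 .l (.n 0 .l .l)) (.n 0 (.n 2 .l .l) (.n 2 .l .l))) (.n 2 (.n 2 (.n 0 .l .l) .l) (.n 0 .l .l))))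
    [(5889851392, 393216000), (77309411328, 77309411328), (549755813888, 549755813888)] rfl (by decide +kernel)
end

mutual
theorem N11B0_t1 : Cov 1 (MBQ.prog0 p11) [(5889851392, 393216000), (27487895552, 27487895552), (549755813888, 549755813888)] :=
  cov_E (MBQ.chkB0_eq p11) (.n 2 (.n 2 (.n 2 .l (.n 0 .l .l)) (.n 0 (.n 1 .l .l) (.n 1 .l .l))) (.n 0 (.n 1 (.n 2 .l .l) (.n 2 .l .l)) (.n 1 (.n 2 .l .l) (.n 2 .l .l))))
    [(5889851392, 393216000), (27487895552, 27487895552), (549755813888, 549755813888)] rfl (by decide +kernel)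
theorem N11B0_t2 : Cov 1 (MBQ.prog0 p11) [(5889851392, 393216000), (82463686656, 27487895552), (549755813888, 549755813888)] :=
  cov_E (MBQ.chkB0_eq p11) (.n 2 (.n 2 (.n 2 .l .l) (.n 0 (.n 1 .l .l) (.n 1 .l .l))) (.n 0 (.n 1 (.n 2 .l .l) (.n 2 .l .l)) (.n 1 (.n 2 .l .l) (.n 2 .l .l))))
    [(5889851392, 393216000), (82463686656, 27487895552), (549755813888, 549755813888)] rfl (by decide +kernel)
end

mutual
theorem N11B1 : Cov 1 (MBQ.prog0 p11) [(5889851392, 393216000), (142936637440, 32986103808), (386547056640, 386547056640)] :=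
  cov_E (MBQ.chkB0_eq p11) (.n 2 (.n 0 (.n 2 .l .l) (.n 2 .l .l)) (.n 2 (.n 2 .l (.n 0 .l .l)) (.n 0 (.n 1 .l .l) (.n 1 .l .l))))
    [(5889851392, 393216000), (142936637440, 32986103808), (386547056640, 386547056640)] rfl (by decide +kernel)
theorem N11B2 : Cov 1 (MBQ.prog0 p11) [(5889851392, 393216000), (225399799808, 49478107136), (241591910400, 241591910400)] :=
  cov_E (MBQ.chkB0_eq p11) (.n 2 (.n 2 .l (.n 0 .l .l)) (.n 1 (.n 2 .l .l) (.n 2 .l .l)))
    [(5889851392, 393216000), (225399799808, 49478107136), (241591910400, 241591910400)] rfl (by decide +kernel)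
end

mutual
theorem N12A_t1 : Cov 1 (MAQ.prog0 p12) [(5889851392, 393216000), (38654705664, 38654705664), (549755813888, 549755813888)] :=
  cov_E (MAQ.chkB0_eq p12) (.n 2 (.n 2 (.n 2 .l (.n 0 .l .l)) (.n 0 (.n 2 .l .l) (.n 2 .l .l))) (.n 0 (.n 2 (.n 0 .l .l) .l) (.n 2 (.n 0 .l .l) .l)))
    [(5889851392, 393216000), (38654705664, 38654705664), (549755813888, 549755813888)] rfl (by decide +kernel)
theorem N12A_t2 : Cov 1 (MAQ.prog0 p12) [(5889851392, 393216000), (115964116992, 38654705664), (549755813888, 549755813888)] :=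
  cov_E (MAQ.chkB0_eq p12) (.n 0 (.n 2 (.n 2 (.n 2 .l .l) (.n 2 .l .l)) (.n 2 (.n 0 .l .l) .l)) (.n 2 (.n 2 (.n 2 .l .l) (.n 2 .l .l)) (.n 2 (.n 0 .l .l) .l)))
    [(5889851392, 393216000), (115964116992, 38654705664), (549755813888, 549755813888)] rfl (by decide +kernel)
end

mutual
theorem N12B0_t1 : Cov 1 (MBQ.prog0 p12) [(5889851392, 393216000), (27487895552, 27487895552), (549755813888, 549755813888)] :=
  cov_E (MBQ.chkB0_eq p12) (.n 2 (.n 2 (.n 2 .l (.n 0 .l .l)) (.n 0 (.n 1 .l .l) (.n 1 .l .l))) (.n 0 (.n 1 (.n 2 .l .l) (.n 2 .l .l)) (.n 1 (.n 2 .l .l) (.n 2 .l .l))))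
    [(5889851392, 393216000), (27487895552, 27487895552), (549755813888, 549755813888)] rfl (by decide +kernel)
theorem N12B0_t2 : Cov 1 (MBQ.prog0 p12) [(5889851392, 393216000), (82463686656, 27487895552), (549755813888, 549755813888)] :=
  cov_E (MBQ.chkB0_eq p12) (.n 2 (.n 2 (.n 2 .l (.n 0 .l .l)) (.n 0 (.n 1 .l .l) (.n 1 .l .l))) (.n 1 (.n 0 (.n 2 .l .l) (.n 2 .l .l)) (.n 2 (.n 2 .l .l) (.n 2 .l .l))))
    [(5889851392, 393216000), (82463686656, 27487895552), (549755813888, 549755813888)] rfl (by decide +kernel)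
end

mutual
theorem N12B1 : Cov 1 (MBQ.prog0 p12) [(5889851392, 393216000), (142936637440, 32986103808), (386547056640, 386547056640)] :=
  cov_E (MBQ.chkB0_eq p12) (.n 2 (.n 2 (.n 0 .l .l) (.n 2 .l .l)) (.n 0 (.n 1 (.n 2 .l .l) (.n 2 .l .l)) (.n 1 (.n 2 .l .l) (.n 2 .l .l))))
    [(5889851392, 393216000), (142936637440, 32986103808), (386547056640, 386547056640)] rfl (by decide +kernel)
theorem N12B2 : Cov 1 (MBQ.prog0 p12) [(5889851392, 393216000), (225399799808, 49478107136), (241591910400, 241591910400)] :=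
  cov_E (MBQ.chkB0_eq p12) (.n 1 (.n 2 (.n 2 .l .l) (.n 2 .l .l)) (.n 2 (.n 2 .l .l) (.n 2 .l .l)))
    [(5889851392, 393216000), (225399799808, 49478107136), (241591910400, 241591910400)] rfl (by decide +kernel)
end

mutual
theorem N13A_t1 : Cov 1 (MAQ.prog0 p13) [(5693243392, 196608000), (77309411328, 77309411328), (549755813888, 549755813888)] :=
  cov_E (MAQ.chkB0_eq p13) (.n 1 (.n 2 (.n 2 (.n 2 .l .l) (.n 2 .l .l)) (.n 0 (.n 2 .l .l) (.n 2 .l .l))) (.n 2 (.n 2 (.n 2 .l .l) (.n 2 .l .l)) (.n 2 (.n 0 .l .l) .l)))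
    [(5693243392, 196608000), (77309411328, 77309411328), (549755813888, 549755813888)] rfl (by decide +kernel)
theorem N13A_t2 : Cov 1 (MAQ.prog0 p13) [(6086459392, 196608000), (77309411328, 77309411328), (549755813888, 549755813888)] :=
  cov_E (MAQ.chkB0_eq p13) (.n 1 (.n 2 (.n 2 (.n 2 .l .l) (.n 2 .l .l)) (.n 2 (.n 0 .l .l) .l)) (.n 2 (.n 2 (.n 2 .l .l) (.n 2 .l .l)) (.n 2 (.n 0 .l .l) .l)))
    [(6086459392, 196608000), (77309411328, 77309411328), (549755813888, 549755813888)] rfl (by decide +kernel)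
end

mutual
theorem N13B0_t1 : Cov 1 (MBQ.prog0 p13) [(5889851392, 393216000), (27487895552, 27487895552), (549755813888, 549755813888)] :=
  cov_E (MBQ.chkB0_eq p13) (.n 0 (.n 1 (.n 2 (.n 2 .l .l) (.n 2 .l .l)) (.n 2 (.n 2 .l .l) (.n 2 .l .l))) (.n 1 (.n 2 (.n 2 .l .l) (.n 2 .l .l)) (.n 2 (.n 2 .l .l) (.n 2 .l .l))))
    [(5889851392, 393216000), (27487895552, 27487895552), (549755813888, 549755813888)] rfl (by decide +kernel)
theorem N13B0_t2 : Cov 1 (MBQ.prog0 p13) [(5889851392, 393216000), (82463686656, 27487895552), (549755813888, 549755813888)] :=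
  cov_E (MBQ.chkB0_eq p13) (.n 2 (.n 2 (.n 2 .l (.n 0 .l .l)) (.n 0 (.n 2 .l .l) (.n 2 .l .l))) (.n 1 (.n 2 (.n 2 .l .l) (.n 0 .l .l)) (.n 2 (.n 2 .l .l) (.n 2 .l .l))))
    [(5889851392, 393216000), (82463686656, 27487895552), (549755813888, 549755813888)] rfl (by decide +kernel)
end

mutual
theorem N13B1 : Cov 1 (MBQ.prog0 p13) [(5889851392, 393216000), (142936637440, 32986103808), (386547056640, 386547056640)] :=
  cov_E (MBQ.chkB0_eq p13) (.n 2 (.n 2 (.n 0 .l .l) (.n 2 .l (.n 0 .l .l))) (.n 0 (.n 1 (.n 2 .l .l) (.n 2 .l .l)) (.n 1 (.n 2 .l .l) (.n 2 .l .l))))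
    [(5889851392, 393216000), (142936637440, 32986103808), (386547056640, 386547056640)] rfl (by decide +kernel)
theorem N13B2 : Cov 1 (MBQ.prog0 p13) [(5889851392, 393216000), (225399799808, 49478107136), (241591910400, 241591910400)] :=
  cov_E (MBQ.chkB0_eq p13) (.n 1 (.n 2 (.n 2 .l .l) (.n 2 .l (.n 0 .l .l))) (.n 2 (.n 2 .l .l) (.n 2 .l (.n 0 .l .l))))
    [(5889851392, 393216000), (225399799808, 49478107136), (241591910400, 241591910400)] rfl (by decide +kernel)
end

mutual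
theorem N14A : Cov 1 (LAQ.prog0 p14) [(5889851392, 393216000), (77309411328, 77309411328), (549755813888, 549755813888)] :=
  cov_E (LAQ.chkB0_eq p14) (.n 2 (.n 2 (.n 2 (.n 0 .l .l) (.n 2 .l .l)) (.n 0 (.n 2 .l .l) (.n 2 .l .l))) (.n 2 (.n 0 (.n 2 .l .l) (.n 2 .l .l)) (.n 2 .l .l)))
    [(5889851392, 393216000), (77309411328, 77309411328), (549755813888, 549755813888)] rfl (by decide +kernel)
theorem N14B0 : Cov 1 (LBQ.prog0 p14) [(5889851392, 393216000), (54975791104, 54975791104), (549755813888, 549755813888)] :=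
  cov_E (LBQ.chkB0_eq p14) (.n 2 (.n 2 (.n 2 .l (.n 0 .l .l)) (.n 2 .l .l)) (.n 2 (.n 2 .l .l) (.n 2 .l .l)))
    [(5889851392, 393216000), (54975791104, 54975791104), (549755813888, 549755813888)] rfl (by decide +kernel)
end

mutual
theorem N14B1 : Cov 1 (LBQ.prog0 p14) [(5889851392, 393216000), (142936637440, 32986103808), (386547056640, 386547056640)] :=
  cov_E (LBQ.chkB0_eq p14) (.n 2 (.n 2 .l .l) (.n 2 .l .l))
    [(5889851392, 393216000), (142936637440, 32986103808), (386547056640, 386547056640)] rfl (by decide +kernel)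
theorem N14B2 : Cov 1 (LBQ.prog0 p14) [(5889851392, 393216000), (225399799808, 49478107136), (241591910400, 241591910400)] :=
  cov_E (LBQ.chkB0_eq p14) (.n 1 (.n 2 .l .l) (.n 2 .l .l))
    [(5889851392, 393216000), (225399799808, 49478107136), (241591910400, 241591910400)] rfl (by decide +kernel)
end

mutual
theorem FA : Cov 1 (FAQ.prog0 pF) [(5889851392, 393216000), (27487895552, 27487895552), (549755813888, 549755813888)] :=
  cov_E (FAQ.chkB0_eq pF) (.n 2 (.n 2 .l .l) (.n 2 .l (.n 1 .l .l)))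
    [(5889851392, 393216000), (27487895552, 27487895552), (549755813888, 549755813888)] rfl (by decide +kernel)
theorem FB : Cov 1 (FBQ.prog0 pF) [(5889851392, 393216000), (137438953472, 137438953472), (549755813888, 549755813888)] :=
  cov_E (FBQ.chkB0_eq pF) (.n 1 (.n 1 (.n 2 .l .l) (.n 2 .l .l)) (.n 1 (.n 1 (.n 2 .l .l) (.n 2 .l .l)) (.n 2 (.n 2 .l (.n 0 .l .l)) (.n 1 (.n 2 .l .l) (.n 2 .l .l)))))
    [(5889851392, 393216000), (137438953472, 137438953472), (549755813888, 549755813888)] rfl (by decide +kernel)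
end

theorem N10B0 : Cov 1 (MBQ.prog0 p10) [(5889851392, 393216000), (54975791104, 54975791104), (549755813888, 549755813888)] :=
  cov_split 1 (by decide +kernel) N10B0_t1 N10B0_t2

theorem N11B0 : Cov 1 (MBQ.prog0 p11) [(5889851392, 393216000), (54975791104, 54975791104), (549755813888, 549755813888)] :=
  cov_split 1 (by decide +kernel) N11B0_t1 N11B0_t2

theorem N12A : Cov 1 (MAQ.prog0 p12) [(5889851392, 393216000), (77309411328, 77309411328), (549755813888, 549755813888)] :=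
  cov_split 1 (by decide +kernel) N12A_t1 N12A_t2

theorem N12B0 : Cov 1 (MBQ.prog0 p12) [(5889851392, 393216000), (54975791104, 54975791104), (549755813888, 549755813888)] :=
  cov_split 1 (by decide +kernel) N12B0_t1 N12B0_t2

theorem N13A : Cov 1 (MAQ.prog0 p13) [(5889851392, 393216000), (77309411328, 77309411328), (549755813888, 549755813888)] :=
  cov_split 0 (by decide +kernel) N13A_t1 N13A_t2

theorem N13B0 : Cov 1 (MBQ.prog0 p13) [(5889851392, 393216000), (54975791104, 54975791104), (549755813888, 549755813888)] :=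
  cov_split 1 (by decide +kernel) N13B0_t1 N13B0_t2

end Pool.Agent.helper12.K175
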